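import Pool.Agent.Helper37.EX.HIPa

/-!
# MP_2857a5_co : module HIP, the host for trees consisting mainly of directed paths, Regime I
-/

set_option autoImplicit false

open Finset
open scoped Classical

namespace OT

noncomputable section

variable {V : Type} [Fintype V]

/-- Two more families of stars are added to the stock of the cut families. -/
theorem hip_add {Δ : ℕ} {D : V → V → Prop} {B C : Finset V} {γ : ℝ} {o i : V → Bool} {k : ℕ}
    {G K : Finset V} {dl : V → Bool} {lv : V → Fin (Δ + 1) → V} {kd : Bool → Bool → Bool}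
    {F : Bool → Finset V} (hS : Stk D Δ G K dl lv) (hC : Cuts D B C γ G K dl lv kd F k)
    (hGK : (G ∪ K).card ≤ 2 * k) {b b' : Bool} {S S' : Finset V}
    {lS lS' : V → Fin (Δ + 1) → V} (hW : ∀ u ∈ S', i u = true ∧ o u = b')
    (hstW : Stars D false (Δ + 1) S' C lS') (hU : ∀ u ∈ S, o u = true ∧ i u = b)
    (hstU : Stars D true (Δ + 1) S C lS) (r : ℕ)
    (hcW : r ≤ k → (3 * Δ + 12) * k ≤ S'.card) (hcU : r + (3 * Δ + 12) * k ≤ S.card) :
    ∃ (G' : Finset V) (dl' : V → Bool) (lv' : V → Fin (Δ + 1) → V) (U W : Finset V),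
      Stk D Δ G' K dl' lv' ∧ Cuts D B C γ G' K dl' lv' kd F k ∧ U ⊆ G' ∧
      (∀ δ, Disjoint U (F δ)) ∧ (∀ u ∈ U, o u = true ∧ i u = b) ∧
      (∀ u ∈ U, Us D B C γ G' dl' lv' u true false) ∧ U.card = r + k ∧ W ⊆ G' ∧
      (∀ δ, Disjoint W (F δ)) ∧ Disjoint W U ∧ (∀ u ∈ W, i u = true ∧ o u = b') ∧
      (∀ u ∈ W, Us D B C γ G' dl' lv' u false false) ∧ (r ≤ k → k ≤ W.card) := by
  have hG : G.card ≤ 2 * k := (card_le_card subset_union_left).trans hGK
  have hK : K.card ≤ 2 * k := (card_le_card subset_union_right).trans hGK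
  have hGKc : G.card + K.card ≤ 4 * k := by omega
  have e1 : (Δ + 2) * G.card ≤ (Δ + 2) * (2 * k) := Nat.mul_le_mul_left _ hG
  -- the first family
  obtain ⟨G₁, dl₁, lv₁, W, hStk1, hC1, hGG, hold1, hWG, hWd, hWS, hWus, hWc, hG1c⟩ :
      ∃ (G₁ : Finset V) (dl₁ : V → Bool) (lv₁ : V → Fin (Δ + 1) → V) (W : Finset V),
        Stk D Δ G₁ K dl₁ lv₁ ∧ Cuts D B C γ G₁ K dl₁ lv₁ kd F k ∧ G ⊆ G₁ ∧
        (∀ u ∈ G, dl₁ u = dl u ∧ lv₁ u = lv u) ∧ W ⊆ G₁ ∧ Disjoint W (G ∪ K) ∧
        (∀ u ∈ W, i u = true ∧ o u = b') ∧ (∀ u ∈ W, Us D B C γ G₁ dl₁ lv₁ u false false) ∧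
        (r ≤ k → k ≤ W.card) ∧ G₁.card ≤ 3 * k := by
    by_cases hrk : r ≤ k
    · have hm : k + (Δ + 2) * G.card + K.card ≤ S'.card := by
        have h2 := hcW hrk
        nlinarith
      obtain ⟨S₂, dl₂, lv₂, hS₂, hS₂c, hS₂d, hStk, hold, hnew⟩ := stkAdd hS false S' C lS' hstW k hm
      refine ⟨G ∪ S₂, dl₂, lv₂, S₂, hStk, ?_, subset_union_left, hold, subset_union_right, hS₂d,
        fun u hu => hW u (hS₂ hu), ?_, fun _ => hS₂c.ge, ?_⟩
      · refine ⟨fun δ => (hC.sub δ).trans (union_subset_union subset_union_left subset_rfl),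
          hC.disj, hC.card,
          fun δ u hu s => us_mono subset_union_left hold (hC.con δ u hu s),
          fun δ u hu s hs l => us_mono subset_union_left hold (hC.fre δ u hu s hs l), hC.ne⟩
      · intro u hu
        right
        refine ⟨mem_union_right _ hu, (hnew u hu).1, fun j => ?_⟩
        rw [(hnew u hu).2]
        exact (hstW.adj u (hS₂ hu) j).1
      · refine (card_union_le _ _).trans ?_
        omega
    · exact ⟨G, dl, lv, ∅, hS, hC, subset_rfl, fun u _ => ⟨rfl, rfl⟩, empty_subset _,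
        disjoint_empty_left _, by simp, by simp, fun h => absurd h hrk, by omega⟩
  have e2 : (Δ + 2) * G₁.card ≤ (Δ + 2) * (3 * k) := Nat.mul_le_mul_left _ hG1c
  have hm : (r + k) + (Δ + 2) * G₁.card + K.card ≤ S.card := by nlinarith
  obtain ⟨U, dl₂, lv₂, hUS, hUc, hUd, hStk, hold, hnew⟩ := stkAdd hStk1 true S C lS hstU (r + k) hm
  refine ⟨G₁ ∪ U, dl₂, lv₂, U, W, hStk, ?_, subset_union_right, ?_, fun u hu => hU u (hUS hu), ?_,
    hUc, hWG.trans subset_union_left, ?_, ?_, hWS, ?_, hWc⟩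
  · refine ⟨fun δ => (hC1.sub δ).trans (union_subset_union subset_union_left subset_rfl),
      hC1.disj, hC1.card,
      fun δ u hu s => us_mono subset_union_left hold (hC1.con δ u hu s),
      fun δ u hu s hs l => us_mono subset_union_left hold (hC1.fre δ u hu s hs l), hC1.ne⟩
  · intro δ
    exact disjoint_of_subset_right (hC1.sub δ) hUd
  · intro u hu
    right
    refine ⟨mem_union_right _ hu, (hnew u hu).1, fun j => ?_⟩
    rw [(hnew u hu).2]
    exact (hstU.adj u (hUS hu) j).1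
  · intro δ
    exact disjoint_of_subset_right (hC.sub δ) hWd
  · exact (disjoint_of_subset_right (hWG.trans subset_union_left) hUd).symm
  · intro u hu
    exact us_mono subset_union_left hold (hWus u hu)

theorem hip_fin {Δ : ℕ} {c : ℝ} (hcut : ∀ (V : Type) [Fintype V] (D : V → V → Prop)
      (B C : Finset V) (κ γ L : ℝ) (k : ℕ), TwoCl D B C κ → κ ≤ 1 / 100 → 0 < γ → γ ≤ 1 / 20 →
      SemiDeg D L → c * (k + 1) ≤ L → 0 < Fintype.card V →
      ∃ (G K : Finset V) (dl : V → Bool) (lv : V → Fin (Δ + 1) → V) (kd : Bool → Bool → Bool)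
        (F : Bool → Finset V), Stk D Δ G K dl lv ∧ Cuts D B C γ G K dl lv kd F k ∧
        (G ∪ K).card ≤ 2 * k)
    {D : V → V → Prop} {B C : Finset V} {o i : V → Bool}
    {γ κ L : ℝ} {k : ℕ} (hγ : γ = 1 / (400 * ((Δ : ℝ) + 2))) (h : hip_Pre D B C o i γ κ)
    (hD : SemiDeg D L) (hoi : Fintype.card V ≤ hp_ct o + hp_ct i) (hV : 0 < Fintype.card V)
    (hcL : c * (k + 1) ≤ L)
    (hL : 24 * ((Δ : ℝ) + 2) * ((3 * Δ + 12) * k) + k + 12 * (Δ + 1) ≤ L)
    (hn : 24 * ((Δ : ℝ) + 2) * ((3 * Δ + 12) * k) ≤ Fintype.card V) :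
    ∃ (G K' : Finset V) (dl : V → Bool) (lv : V → Fin (Δ + 1) → V) (kd : Bool → Bool → Bool)
      (F : Bool → Finset V) (τ ω : Bool) (U W : Finset V),
      HostIP D Δ B C (fun u s => if s = true then o u else i u) G K' dl lv kd F τ ω U W γ κ k := by
  have hΔ : (0 : ℝ) ≤ (Δ : ℝ) := Nat.cast_nonneg _
  have hk : (0 : ℝ) ≤ (k : ℝ) := Nat.cast_nonneg _
  have hγ0 : 0 < γ := by rw [hγ]; positivity
  have hγ1 : γ ≤ 1 / 20 := by
    rw [hγ]
    apply one_div_le_one_div_of_le (by norm_num)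
    linarith
  have hγm : 400 * ((Δ : ℝ) + 2) * γ = 1 := by rw [hγ]; field_simp
  have hr0 : (hp_ct i : ℝ) ≤ hp_ct o := by exact_mod_cast h.r0
  have hoi' : (Fintype.card V : ℝ) ≤ hp_ct o + hp_ct i := by exact_mod_cast hoi
  have hr2 := h.r2
  have hn0 : (0 : ℝ) ≤ (Fintype.card V : ℝ) := Nat.cast_nonneg _
  obtain ⟨Q, hQ⟩ : ∃ Q : ℝ, Q = (3 * (Δ : ℝ) + 12) * k := ⟨_, rfl⟩
  rw [← hQ] at hL hn
  have hQ0 : 0 ≤ Q := by rw [hQ]; positivity
  have hQ1 : 12 * (k : ℝ) ≤ Q := by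
    rw [hQ]
    nlinarith [mul_nonneg hΔ hk]
  have hXo : ((univ.filter fun u => o u = true).card : ℝ) = hp_ct o := rfl
  have hXi : ((univ.filter fun u => i u = true).card : ℝ) = hp_ct i := rfl
  obtain ⟨E, hE⟩ : ∃ E : ℝ, E = (Δ : ℝ) + 2 := ⟨_, rfl⟩
  rw [← hE] at hL hn hγm
  have hE2 : 2 ≤ E := by rw [hE]; linarith
  have hE0 : 0 < E := by linarith
  have hEQ : 0 ≤ E * Q := by positivity
  have hΔE : (Δ : ℝ) + 1 = E - 1 := by rw [hE]; ring
  -- the family of out-stars
  have key1 : ∃ (b : Bool) (S : Finset V) (lv : V → Fin (Δ + 1) → V),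
      (∀ u ∈ S, o u = true ∧ i u = b) ∧ Stars D true (Δ + 1) S C lv ∧
      (hp_ct o : ℝ) + Q ≤ hp_ct i + S.card := by
    have hin : ∀ y ∈ C, L + (hp_ct o - (Fintype.card V : ℝ) / 2) ≤
        (((univ.filter fun u => o u = true) ∩ adjN D (!true) y).card : ℝ) := by
      intro y _
      have h1 := hp_inter (adjN D (!true) y) (univ.filter fun u => o u = true)
      have h2 := hD.deg (!true) y
      rw [hXo] at h1
      linarith
    have hs0 : 0 ≤ (hp_ct o : ℝ) - (Fintype.card V : ℝ) / 2 := by linarith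
    have hL12 : 12 * ((Δ : ℝ) + 1) ≤ L := by nlinarith
    have hd : (4 : ℝ) * ((Δ + 1 : ℕ) : ℝ) ≤ 1 / 3 * (L + (hp_ct o - (Fintype.card V : ℝ) / 2)) := by
      push_cast
      linarith
    by_cases hr : hp_ct o = hp_ct i
    · have hout : ∀ u ∈ (univ.filter fun u => o u = true), ((C ∩ adjN D true u).card : ℝ) ≤
          1 * (Fintype.card V : ℝ) := by
        intro u _
        rw [one_mul]
        exact_mod_cast card_le_univ _
      obtain ⟨S₀, lv, hS₀, hst₀, hc⟩ := stars (Δ + 1) (1 / 3) (by norm_num) D hD.irr true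
        (univ.filter fun u => o u = true) C (L + (hp_ct o - (Fintype.card V : ℝ) / 2)) 1 one_pos
        h.cC hd hin hout hV
      obtain ⟨b, S, hS, hb, hst₁, hcc⟩ := hp_split hst₀ i
      refine ⟨b, S, lv, fun u hu => ⟨(mem_filter.1 (hS₀ (hS hu))).2, hb u hu⟩, hst₁, ?_⟩
      have hcc' : (S₀.card : ℝ) ≤ 2 * S.card := by exact_mod_cast hcc
      have hr' : (hp_ct o : ℝ) = hp_ct i := by exact_mod_cast hr
      have hgoal : Q ≤ S.card := by
        have hcE : (E : ℝ) * S₀.card ≤ E * (2 * S.card) := mul_le_mul_of_nonneg_left hcc' hE0.le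
        have h9 : 24 * (E * Q) ≤ 24 * (E * S.card) := by
          rcases hc with hc | hc
          · push_cast at hc
            rw [hΔE] at hc
            have h5 : 1 / 3 * (L + (hp_ct o - (Fintype.card V : ℝ) / 2)) ≤ 4 * (E * S₀.card) := by
              linarith
            nlinarith
          · push_cast at hc
            rw [hΔE] at hc
            have h5 : 1 / 3 * (Fintype.card V : ℝ) ≤ 2 * (E * S₀.card) := by linarith
            nlinarith
        have h10 : E * Q ≤ E * S.card := by linarith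
        exact le_of_mul_le_mul_left h10 hE0
      linarith
    · have halt := (h.alt.resolve_left hr).1
      have hout : ∀ u ∈ (univ.filter fun u => o u = true), ((C ∩ adjN D true u).card : ℝ) ≤
          (2 * γ) * (Fintype.card V : ℝ) := by
        intro u hu
        exact halt u (mem_filter.1 hu).2
      obtain ⟨S₀, lv, hS₀, hst₀, hc⟩ := stars (Δ + 1) (1 / 3) (by norm_num) D hD.irr true
        (univ.filter fun u => o u = true) C (L + (hp_ct o - (Fintype.card V : ℝ) / 2)) (2 * γ)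
        (by positivity) h.cC hd hin hout hV
      obtain ⟨b, S, hS, hb, hst₁, hcc⟩ := hp_split hst₀ i
      refine ⟨b, S, lv, fun u hu => ⟨(mem_filter.1 (hS₀ (hS hu))).2, hb u hu⟩, hst₁, ?_⟩
      have hcc' : (S₀.card : ℝ) ≤ 2 * S.card := by exact_mod_cast hcc
      have hcE : (E : ℝ) * S₀.card ≤ E * (2 * S.card) := mul_le_mul_of_nonneg_left hcc' hE0.le
      rcases hc with hc | hc
      · push_cast at hc
        rw [hΔE] at hc
        have h5 : 4 * (E - 1 + 1) * (2 * γ) * S₀.card = 1 / 50 * S₀.card := by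
          have : 4 * (E - 1 + 1) * (2 * γ) = 1 / 50 := by linarith
          rw [this]
        rw [h5] at hc
        have h6 : Q ≤ L := by nlinarith
        linarith
      · push_cast at hc
        rw [hΔE] at hc
        have h5 : 1 / 3 * (Fintype.card V : ℝ) ≤ 2 * (E * S₀.card) := by linarith
        have h9 : (hp_ct o : ℝ) - hp_ct i ≤ γ * Fintype.card V := by linarith
        have h10 : E * ((hp_ct o : ℝ) - hp_ct i) ≤ E * (γ * Fintype.card V) :=
          mul_le_mul_of_nonneg_left h9 hE0.le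
        have h11 : E * (γ * Fintype.card V) = 1 / 400 * Fintype.card V := by
          have : E * γ = 1 / 400 := by linarith
          rw [← mul_assoc, this]
        have h6 : E * (((hp_ct o : ℝ) - hp_ct i) + Q) ≤ E * S.card := by
          have h12 : E * (((hp_ct o : ℝ) - hp_ct i) + Q) =
            E * ((hp_ct o : ℝ) - hp_ct i) + E * Q := by ring
          have h13 : E * (2 * (S.card : ℝ)) = 2 * (E * S.card) := by ring
          rw [h12]
          linarith
        have h7 := le_of_mul_le_mul_left h6 hE0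
        linarith
  -- the family of in-stars
  have key2 : ∃ (b : Bool) (S : Finset V) (lv : V → Fin (Δ + 1) → V),
      (∀ u ∈ S, i u = true ∧ o u = b) ∧ Stars D false (Δ + 1) S C lv ∧
      ((hp_ct o : ℝ) ≤ hp_ct i + k → Q ≤ S.card) := by
    by_cases hr : (hp_ct o : ℝ) ≤ hp_ct i + k
    · have hin : ∀ y ∈ C, L - k ≤
          (((univ.filter fun u => i u = true) ∩ adjN D (!false) y).card : ℝ) := by
        intro y _
        have h1 := hp_inter (adjN D (!false) y) (univ.filter fun u => i u = true)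
        have h2 := hD.deg (!false) y
        rw [hXi] at h1
        linarith
      have hd : (4 : ℝ) * ((Δ + 1 : ℕ) : ℝ) ≤ 1 / 3 * (L - k) := by
        push_cast
        nlinarith
      have hout : ∀ u ∈ (univ.filter fun u => i u = true), ((C ∩ adjN D false u).card : ℝ) ≤
          1 * (Fintype.card V : ℝ) := by
        intro u _
        rw [one_mul]
        exact_mod_cast card_le_univ _
      obtain ⟨S₀, lv, hS₀, hst₀, hc⟩ := stars (Δ + 1) (1 / 3) (by norm_num) D hD.irr false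
        (univ.filter fun u => i u = true) C (L - k) 1 one_pos h.cC hd hin hout hV
      obtain ⟨b, S, hS, hb, hst₁, hcc⟩ := hp_split hst₀ o
      refine ⟨b, S, lv, fun u hu => ⟨(mem_filter.1 (hS₀ (hS hu))).2, hb u hu⟩, hst₁, fun _ => ?_⟩
      have hcc' : (S₀.card : ℝ) ≤ 2 * S.card := by exact_mod_cast hcc
      have hcE : (E : ℝ) * S₀.card ≤ E * (2 * S.card) := mul_le_mul_of_nonneg_left hcc' hE0.le
      have h9 : 24 * (E * Q) ≤ 24 * (E * S.card) := by
        rcases hc with hc | hc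
        · push_cast at hc
          rw [hΔE] at hc
          have h5 : 1 / 3 * (L - k) ≤ 4 * (E * S₀.card) := by linarith
          nlinarith
        · push_cast at hc
          rw [hΔE] at hc
          have h5 : 1 / 3 * (Fintype.card V : ℝ) ≤ 2 * (E * S₀.card) := by linarith
          nlinarith
      have h10 : E * Q ≤ E * S.card := by linarith
      exact le_of_mul_le_mul_left h10 hE0
    · refine ⟨true, ∅, fun u _ => u, by simp, ⟨by simp, by simp⟩, fun hx => absurd hx hr⟩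
  obtain ⟨b, S, lS, hU, hstU, hcU⟩ := key1
  obtain ⟨b', S', lS', hW, hstW, hcW⟩ := key2
  obtain ⟨G, K, dl, lv, kd, F, hStk, hCuts, hGK⟩ := hcut V D B C (1 / 100) γ L k h.tc' le_rfl hγ0
    hγ1 hD hcL hV
  have hr0' := h.r0
  obtain ⟨G', dl', lv', U, W, f1, f2, f3, f4, f5, f6, f7, f8, f9, f10, f11, f12, f13⟩ :=
    hip_add hStk hCuts hGK hW hstW hU hstU (hp_ct o - hp_ct i)
      (by
        intro hrk
        have h1 : hp_ct o ≤ hp_ct i + k := by omega
        have h2 := hcW (by exact_mod_cast h1)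
        rw [hQ] at h2
        exact_mod_cast h2)
      (by
        rw [hQ] at hcU
        have h1 : hp_ct o + (3 * Δ + 12) * k ≤ hp_ct i + S.card := by exact_mod_cast hcU
        omega)
  refine ⟨G', K, dl', lv', kd, F, b, b', U, W, h.tc, ?_, ?_, ?_, ?_, ?_, f1, f2, f3, f4, ?_, f6, ?_,
    f8, f9, f10, ?_, f12, ?_⟩
  · intro u hu s
    have := h.labB u hu
    cases s <;> simp [this.1, this.2]
  · intro u hu s
    have := h.labC u hu
    cases s <;> simp [this.1, this.2]
  · intro u s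
    cases s
    · exact h.inn u
    · exact h.out u
  · exact h.r0
  · exact h.r1
  · intro u hu
    exact f5 u hu
  · have : hp_ct o + k ≤ hp_ct i + U.card := by omega
    exact this
  · intro u hu
    exact f11 u hu
  · intro hx
    have h1 : hp_ct o ≤ hp_ct i + k := hx
    exact f13 (by omega)

theorem hostIP (Δ K : ℕ) : ∃ γ : ℝ, 0 < γ ∧ ∀ κ : ℝ, 0 < κ → ∃ (κ₀ c : ℝ) (N : ℕ), 0 < κ₀ ∧
    ∀ (V : Type) [Fintype V], N ≤ Fintype.card V → ∀ (D : V → V → Prop) (B₀ C₀ : Finset V),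
    TwoCl D B₀ C₀ κ₀ → SemiDeg D (c * Real.log (Fintype.card V)) →
    ∃ (D' : V → V → Prop) (B C : Finset V) (lab : V → Bool → Bool) (G K' : Finset V)
      (dl : V → Bool) (lv : V → Fin (Δ + 1) → V) (kd : Bool → Bool → Bool)
      (F : Bool → Finset V) (τ ω : Bool) (U W : Finset V), (D' = D ∨ D' = rev D) ∧
      HostIP D' Δ B C lab G K' dl lv kd F τ ω U W γ κ
        (K * (Nat.log 2 (Fintype.card V) + 1)) := by
  have hΔ : (0 : ℝ) ≤ (Δ : ℝ) := Nat.cast_nonneg _
  have hK : (0 : ℝ) ≤ (K : ℝ) := Nat.cast_nonneg _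
  obtain ⟨c₀, hc₀, hcut⟩ := cutFam Δ
  obtain ⟨γ, hγ⟩ : ∃ γ : ℝ, γ = 1 / (400 * ((Δ : ℝ) + 2)) := ⟨_, rfl⟩
  have hγ0 : 0 < γ := by rw [hγ]; positivity
  have hγ1 : γ ≤ 1 / 100 := by
    rw [hγ]
    apply one_div_le_one_div_of_le (by norm_num)
    linarith
  refine ⟨γ, hγ0, fun κ hκ => ?_⟩
  obtain ⟨A, hA⟩ : ∃ A : ℝ, A = 24 * ((Δ : ℝ) + 2) * (3 * Δ + 12) := ⟨_, rfl⟩
  have hA0 : 0 < A := by rw [hA]; positivity
  obtain ⟨x₀, hx₀⟩ := Filter.eventually_atTop.1 (Real.isLittleO_log_id_atTop.bound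
    (c := 1 / (A * (3 * K) + 1)) (by positivity))
  refine ⟨min (κ / 5) (γ / 4), (A + 1) * (3 * K) + 12 * (Δ + 1) + c₀ * (3 * K + 1),
    max 3 (Nat.ceil x₀), lt_min (by positivity) (by positivity), ?_⟩
  intro V _ hN D B₀ C₀ tc hD
  have hn3 : 3 ≤ Fintype.card V := (le_max_left _ _).trans hN
  obtain ⟨hk, hlog⟩ := hp_log (Fintype.card V) K hn3
  set k := K * (Nat.log 2 (Fintype.card V) + 1) with hkdef
  set l := Real.log (Fintype.card V) with hl
  set κ₀ := min (κ / 5) (γ / 4) with hκ₀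
  have hκ₀0 : 0 < κ₀ := lt_min (by positivity) (by positivity)
  have hκ₀1 : κ₀ ≤ κ / 5 := min_le_left _ _
  have hκ₀2 : κ₀ ≤ γ / 4 := min_le_right _ _
  have hx1 : x₀ ≤ (Fintype.card V : ℝ) := (Nat.le_ceil x₀).trans
    (by exact_mod_cast (le_max_right _ _).trans hN)
  have hx2 := hx₀ _ hx1
  have hcardpos : (0 : ℝ) ≤ (Fintype.card V : ℝ) := Nat.cast_nonneg _
  simp only [id_eq, Real.norm_eq_abs] at hx2
  rw [abs_of_nonneg hcardpos, abs_of_nonneg (by linarith : (0 : ℝ) ≤ Real.log (Fintype.card V)),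
    ← hl] at hx2
  have hx3 : A * (3 * K) * l ≤ (Fintype.card V : ℝ) := by
    have hM0 : (0 : ℝ) < A * (3 * K) + 1 := by positivity
    have h1 : (A * (3 * K) + 1) * l ≤ (Fintype.card V : ℝ) := by
      rw [one_div_mul_eq_div, le_div_iff₀ hM0] at hx2
      linarith
    linarith
  have hAk : A * (k : ℝ) ≤ A * (3 * K * l) := mul_le_mul_of_nonneg_left hk hA0.le
  have hAk' : 24 * ((Δ : ℝ) + 2) * ((3 * Δ + 12) * k) = A * k := by rw [hA]; ring
  have hcl : 0 ≤ c₀ * (3 * K + 1) * l := by positivity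
  have hcΔ : 12 * ((Δ : ℝ) + 1) ≤ 12 * (Δ + 1) * l := by
    have := mul_le_mul_of_nonneg_left hlog (by positivity : (0 : ℝ) ≤ 12 * ((Δ : ℝ) + 1))
    linarith
  have hkL : 24 * ((Δ : ℝ) + 2) * ((3 * Δ + 12) * k) + k + 12 * (Δ + 1) ≤
      ((A + 1) * (3 * K) + 12 * (Δ + 1) + c₀ * (3 * K + 1)) * l := by
    rw [hAk']
    have : ((A + 1) * (3 * K) + 12 * (Δ + 1) + c₀ * (3 * K + 1)) * l =
      A * (3 * K * l) + 3 * K * l + 12 * (Δ + 1) * l + c₀ * (3 * K + 1) * l := by ring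
    linarith
  have hcL : c₀ * ((k : ℝ) + 1) ≤
      ((A + 1) * (3 * K) + 12 * (Δ + 1) + c₀ * (3 * K + 1)) * l := by
    have h1 : c₀ * ((k : ℝ) + 1) ≤ c₀ * (3 * K * l + l) :=
      mul_le_mul_of_nonneg_left (by linarith) hc₀.le
    have h2 : 0 ≤ A * (3 * K * l) := by positivity
    have h3 : 0 ≤ 3 * K * l := by positivity
    have : ((A + 1) * (3 * K) + 12 * (Δ + 1) + c₀ * (3 * K + 1)) * l =
      A * (3 * K * l) + 3 * K * l + 12 * (Δ + 1) * l + c₀ * (3 * K * l + l) := by ring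
    have h4 : (0 : ℝ) ≤ 12 * (Δ + 1) * l := by positivity
    linarith
  have hkn : 24 * ((Δ : ℝ) + 2) * ((3 * Δ + 12) * k) ≤ Fintype.card V := by
    rw [hAk']
    have : A * (3 * K * l) = A * (3 * K) * l := by ring
    linarith
  have hL0 : 0 ≤ ((A + 1) * (3 * K) + 12 * (Δ + 1) + c₀ * (3 * K + 1)) * l := by positivity
  obtain ⟨o₀, i₀, hini⟩ := hip_ini hL0 (by linarith) tc hD
  -- make the difference nonnegative
  have hmid : ∃ (B C : Finset V) (o i : V → Bool), hip_Pre D B C o i γ κ := by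
    rcases le_total (hp_ct i₀) (hp_ct o₀) with hle | hle
    · exact hip_pre (κ := κ) hκ₀0.le hγ1 (by linarith) (by linarith) hini hle
    · have h1 := hp_ct_not o₀
      have h2 := hp_ct_not i₀
      exact hip_pre (κ := κ) hκ₀0.le hγ1 (by linarith) (by linarith) (hip_ini_swap hini) (by omega)
  obtain ⟨B, C, o, i, hpre⟩ := hmid
  by_cases hoi : Fintype.card V ≤ hp_ct o + hp_ct i
  · obtain ⟨G, K', dl, lv, kd, F, τ, ω, U, W, hh⟩ := hip_fin hcut hγ hpre hD hoi (by omega) hcL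
      hkL hkn
    exact ⟨D, B, C, _, G, K', dl, lv, kd, F, τ, ω, U, W, Or.inl rfl, hh⟩
  · have h1 := hp_ct_not o
    have h2 := hp_ct_not i
    have hD' : SemiDeg (rev D) (((A + 1) * (3 * K) + 12 * (Δ + 1) + c₀ * (3 * K + 1)) * l) :=
      ⟨fun v => hD.irr v, fun s u => by rw [hp_adjN_rev]; exact hD.deg _ u⟩
    obtain ⟨G, K', dl, lv, kd, F, τ, ω, U, W, hh⟩ := hip_fin hcut hγ (hip_rev hpre) hD' (by omega)
      (by omega) hcL hkL hkn
    exact ⟨rev D, C, B, _, G, K', dl, lv, kd, F, τ, ω, U, W, Or.inr rfl, hh⟩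

end

end OT
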