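import Pool.Agent.Helper47.EX.DJ

/-!
# MP_2857a5_co : families for the cuts (module CF)
-/

set_option autoImplicit false

open Finset
open scoped Classical

namespace OT

noncomputable section

variable {V : Type} [Fintype V]

theorem cf_sd {D : V → V → Prop} {B C : Finset V} {κ : ℝ} (h : TwoCl D B C κ) (k : Bool) :
    (1 / 2 - κ) * (Fintype.card V : ℝ) ≤ ((sd B C k).card : ℝ) := by
  cases k
  · exact h.cardC
  · exact h.cardB

theorem cf_fr {D : V → V → Prop} {B C : Finset V} {κ γ L : ℝ} (h : TwoCl D B C κ)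
    (hκ : κ ≤ 1 / 100) (hγ : γ ≤ 1 / 20) (hL : 0 ≤ L) (hD : SemiDeg D L)
    (hV : 0 < Fintype.card V) (u : V) (s k : Bool) :
    Fr D B C γ u s k ∨ Fr D B C γ u s (!k) := by
  by_contra hcon
  push Not at hcon
  have hN : (0 : ℝ) < (Fintype.card V : ℝ) := by exact_mod_cast hV
  have h1 : ∀ l : Bool, ((sd B C l ∩ adjN D s u).card : ℝ) < γ * (Fintype.card V : ℝ) := by
    intro l
    unfold Fr at hcon
    rw [not_le, not_le] at hcon
    cases k <;> cases l
    · exact hcon.1
    · exact hcon.2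
    · exact hcon.2
    · exact hcon.1
  have hB := h1 true
  have hC := h1 false
  have hsub : adjN D s u ⊆ ((sd B C true ∩ adjN D s u) ∪ (sd B C false ∩ adjN D s u)) ∪
      (univ \ (B ∪ C)) := by
    intro v hv
    by_cases hvB : v ∈ B
    · simp [sd, hv, hvB]
    · by_cases hvC : v ∈ C
      · simp [sd, hv, hvC]
      · simp [hvB, hvC]
  have h2 := Finset.card_le_card hsub
  have h3 := Finset.card_union_le ((sd B C true ∩ adjN D s u) ∪ (sd B C false ∩ adjN D s u))
    (univ \ (B ∪ C))
  have h4 := Finset.card_union_le (sd B C true ∩ adjN D s u) (sd B C false ∩ adjN D s u)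
  have h5 : (univ \ (B ∪ C)).card + (B.card + C.card) = Fintype.card V := by
    rw [← Finset.card_union_of_disjoint h.disj, ← Finset.card_univ,
      Finset.card_sdiff_of_subset (Finset.subset_univ _)]
    have := Finset.card_le_univ (B ∪ C)
    rw [Finset.card_univ]
    omega
  have h5' : ((univ \ (B ∪ C)).card : ℝ) + ((B.card : ℝ) + (C.card : ℝ)) = Fintype.card V := by
    exact_mod_cast h5
  have h6 : ((adjN D s u).card : ℝ) ≤ ((sd B C true ∩ adjN D s u).card : ℝ) +
      ((sd B C false ∩ adjN D s u).card : ℝ) + ((univ \ (B ∪ C)).card : ℝ) := by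
    have : (adjN D s u).card ≤ (sd B C true ∩ adjN D s u).card +
      (sd B C false ∩ adjN D s u).card + (univ \ (B ∪ C)).card := by omega
    exact_mod_cast this
  have h7 := hD.deg s u
  have h8 := h.cardB
  have h9 := h.cardC
  nlinarith

/-- Double counting. -/
theorem cf_double (D : V → V → Prop) (s : Bool) (X Y : Finset V) :
    ∑ b ∈ Y, (X ∩ adjN D (!s) b).card = ∑ u ∈ X, (Y ∩ adjN D s u).card := by
  have h1 : ∀ b, X ∩ adjN D (!s) b = X.filter fun u => Adj D s u b := by
    intro b
    ext u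
    cases s <;> simp [adjN, Adj]
  have h2 : ∀ u, Y ∩ adjN D s u = Y.filter fun b => Adj D s u b := by
    intro u
    ext b
    simp only [adjN, Finset.mem_inter, Finset.mem_filter, Finset.mem_univ, true_and]
  simp only [h1, h2, Finset.card_filter]
  exact Finset.sum_comm

/-- The star family. -/
theorem cf_star (Δ : ℕ) {D : V → V → Prop} {B C : Finset V} {κ γ L : ℝ} (h : TwoCl D B C κ)
    (hκ : κ ≤ 1 / 100) (hγ : γ ≤ 1 / 20) (hL : 0 ≤ L) (hD : SemiDeg D L)
    (hV : 0 < Fintype.card V) (s q : Bool) (X R M : Finset V)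
    (hcov : ∀ u, u ∈ X ∨ u ∈ R ∨ u ∈ M) (hM : ∀ u ∈ M, ¬ Fr D B C γ u s q)
    (hx : (L + (M.card : ℝ)) / 2 ≤ (Fintype.card V : ℝ) / 2 + L - (R.card : ℝ)) :
    ∃ (S : Finset V) (lv : V → Fin (Δ + 1) → V), S ⊆ X ∧
      Stars D s (Δ + 1) S (sd B C q) lv ∧
      L / 6 ≤ ((Δ : ℝ) + 1) + 2 * ((Δ : ℝ) + 2) * (S.card : ℝ) := by
  have hN : (0 : ℝ) < (Fintype.card V : ℝ) := by exact_mod_cast hV
  have hsumM : (∑ b ∈ sd B C q, ((M ∩ adjN D (!s) b).card : ℝ)) ≤
      γ * (Fintype.card V : ℝ) * (M.card : ℝ) := by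
    have h1 := cf_double D s M (sd B C q)
    have h2 : (∑ b ∈ sd B C q, ((M ∩ adjN D (!s) b).card : ℝ)) =
        ∑ u ∈ M, (((sd B C q) ∩ adjN D s u).card : ℝ) := by exact_mod_cast h1
    rw [h2]
    calc ∑ u ∈ M, (((sd B C q) ∩ adjN D s u).card : ℝ)
        ≤ ∑ u ∈ M, γ * (Fintype.card V : ℝ) := by
          refine Finset.sum_le_sum fun u hu => ?_
          have := hM u hu
          unfold Fr at this
          exact (not_le.1 this).le
      _ = γ * (Fintype.card V : ℝ) * (M.card : ℝ) := by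
          rw [Finset.sum_const, nsmul_eq_mul, mul_comm]
  have hpt : ∀ b, (Fintype.card V : ℝ) / 2 + L - (R.card : ℝ) ≤
      ((X ∩ adjN D (!s) b).card : ℝ) + ((M ∩ adjN D (!s) b).card : ℝ) := by
    intro b
    have h1 := hD.deg (!s) b
    have hsub : adjN D (!s) b ⊆ ((X ∩ adjN D (!s) b) ∪ (M ∩ adjN D (!s) b)) ∪ R := by
      intro v hv
      rcases hcov v with h | h | h
      · simp [h, hv]
      · simp [h]
      · simp [h, hv]
    have h2 := Finset.card_le_card hsub
    have h3 := Finset.card_union_le ((X ∩ adjN D (!s) b) ∪ (M ∩ adjN D (!s) b)) R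
    have h4 := Finset.card_union_le (X ∩ adjN D (!s) b) (M ∩ adjN D (!s) b)
    have h5 : ((adjN D (!s) b).card : ℝ) ≤ ((X ∩ adjN D (!s) b).card : ℝ) +
        ((M ∩ adjN D (!s) b).card : ℝ) + (R.card : ℝ) := by
      have : (adjN D (!s) b).card ≤ (X ∩ adjN D (!s) b).card + (M ∩ adjN D (!s) b).card +
        R.card := by omega
      exact_mod_cast this
    linarith
  have hsum : ((sd B C q).card : ℝ) * ((Fintype.card V : ℝ) / 2 + L - (R.card : ℝ)) ≤
      ∑ b ∈ sd B C q, ((X ∩ adjN D (!s) b).card : ℝ) +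
        γ * (Fintype.card V : ℝ) * (M.card : ℝ) := by
    calc ((sd B C q).card : ℝ) * ((Fintype.card V : ℝ) / 2 + L - (R.card : ℝ))
        = ∑ b ∈ sd B C q, ((Fintype.card V : ℝ) / 2 + L - (R.card : ℝ)) := by
          rw [Finset.sum_const, nsmul_eq_mul]
      _ ≤ ∑ b ∈ sd B C q, (((X ∩ adjN D (!s) b).card : ℝ) +
            ((M ∩ adjN D (!s) b).card : ℝ)) := Finset.sum_le_sum fun b _ => hpt b
      _ = ∑ b ∈ sd B C q, ((X ∩ adjN D (!s) b).card : ℝ) +
            ∑ b ∈ sd B C q, ((M ∩ adjN D (!s) b).card : ℝ) := Finset.sum_add_distrib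
      _ ≤ _ := by linarith
  have hM0 : (0 : ℝ) ≤ (M.card : ℝ) := Nat.cast_nonneg _
  have hsd := cf_sd h q
  have hlow : (49 / 100 * (Fintype.card V : ℝ)) * ((L + (M.card : ℝ)) / 2) ≤
      ((sd B C q).card : ℝ) * ((Fintype.card V : ℝ) / 2 + L - (R.card : ℝ)) := by
    apply mul_le_mul _ hx (by positivity) (Nat.cast_nonneg _)
    nlinarith
  have hγM : γ * (Fintype.card V : ℝ) * (M.card : ℝ) ≤
      1 / 20 * (Fintype.card V : ℝ) * (M.card : ℝ) := by
    apply mul_le_mul_of_nonneg_right _ hM0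
    apply mul_le_mul_of_nonneg_right hγ hN.le
  have hfin : L / 6 * (Fintype.card V : ℝ) ≤
      ∑ b ∈ sd B C q, ((X ∩ adjN D (!s) b).card : ℝ) := by
    have e1 : (0 : ℝ) ≤ (Fintype.card V : ℝ) * (M.card : ℝ) := by positivity
    have e2 : (0 : ℝ) ≤ (Fintype.card V : ℝ) * L := by positivity
    nlinarith
  obtain ⟨S, lv, hS, hst, hc⟩ := starsA (Δ + 1) D hD.irr s X (sd B C q) (L / 6) hV hfin
  refine ⟨S, lv, hS, hst, ?_⟩
  push_cast at hc
  linarith

omit [Fintype V] in
theorem cf_maj (S : Finset V) (o : V → Bool) :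
    ∃ o₀, S.card ≤ 2 * (S.filter fun u => o u = o₀).card := by
  have h : (S.filter fun u => o u = true).card + (S.filter fun u => o u = false).card =
      S.card := by
    have h1 := Finset.card_filter_add_card_filter_not (s := S) (fun u => o u = true)
    have h2 : (S.filter fun u => ¬ o u = true) = S.filter fun u => o u = false := by
      apply Finset.filter_congr
      intro u _
      simp
    rw [h2] at h1
    exact h1
  by_cases h1 : (S.filter fun u => o u = false).card ≤ (S.filter fun u => o u = true).card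
  · exact ⟨true, by omega⟩
  · exact ⟨false, by omega⟩

/-- Putting the two families together. -/
theorem cf_join {Δ : ℕ} {D : V → V → Prop} {B C : Finset V} {γ : ℝ} {k : ℕ} {o₀ : Bool}
    {F₀ F₁ G K : Finset V} {dl : V → Bool} {lv : V → Fin (Δ + 1) → V} (kd₁ : Bool → Bool)
    (hS : Stk D Δ G K dl lv) (h0 : F₀ ⊆ G) (h1 : F₁ ⊆ G ∪ K) (hd : Disjoint F₀ F₁)
    (hc0 : F₀.card = k) (hc1 : F₁.card = k)
    (hfree : ∀ u ∈ F₀, ∀ l, Us D B C γ G dl lv u false l)
    (hout : ∀ u ∈ F₀, Us D B C γ G dl lv u true o₀)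
    (hcon : ∀ u ∈ F₁, ∀ s, Us D B C γ G dl lv u s (xor o₀ s))
    (hfre : ∀ u ∈ F₁, ∀ s, kd₁ s = false → ∀ l, Us D B C γ G dl lv u s l)
    (hGK : (G ∪ K).card ≤ 2 * k) :
    ∃ (G K : Finset V) (dl : V → Bool) (lv : V → Fin (Δ + 1) → V) (kd : Bool → Bool → Bool)
      (F : Bool → Finset V), Stk D Δ G K dl lv ∧ Cuts D B C γ G K dl lv kd F k ∧
      (G ∪ K).card ≤ 2 * k := by
  have h0' : F₀ ⊆ G ∪ K := h0.trans Finset.subset_union_left
  refine ⟨G, K, dl, lv, fun b s => if b = o₀ then kd₁ s else s,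
    fun b => if b = o₀ then F₁ else F₀, hS, ?_, hGK⟩
  refine ⟨?_, ?_, ?_, ?_, ?_, ?_⟩
  · intro δ
    split_ifs
    · exact h1
    · exact h0'
  · cases o₀
    · simpa using hd
    · simpa using hd.symm
  · intro δ
    split_ifs
    · exact hc1.ge
    · exact hc0.ge
  · intro δ u hu s
    by_cases hδ : δ = o₀
    · rw [if_pos hδ] at hu
      rw [hδ]
      exact hcon u hu s
    · rw [if_neg hδ] at hu
      cases s
      · exact hfree u hu _
      · have : xor δ true = o₀ := by
          cases δ <;> cases o₀ <;> simp_all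
        rw [this]
        exact hout u hu
  · intro δ u hu s hs l
    by_cases hδ : δ = o₀
    · rw [if_pos hδ] at hu hs
      exact hfre u hu s hs l
    · rw [if_neg hδ] at hu hs
      rw [hs]
      exact hfree u hu l
  · refine ⟨!o₀, false, ?_⟩
    cases o₀ <;> simp

theorem cutFam (Δ : ℕ) : ∃ c : ℝ, 0 < c ∧ ∀ (V : Type) [Fintype V] (D : V → V → Prop)
    (B C : Finset V) (κ γ L : ℝ) (k : ℕ), TwoCl D B C κ → κ ≤ 1 / 100 → 0 < γ → γ ≤ 1 / 20 →
    SemiDeg D L → c * (k + 1) ≤ L → 0 < Fintype.card V →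
    ∃ (G K : Finset V) (dl : V → Bool) (lv : V → Fin (Δ + 1) → V) (kd : Bool → Bool → Bool)
      (F : Bool → Finset V), Stk D Δ G K dl lv ∧ Cuts D B C γ G K dl lv kd F k ∧
      (G ∪ K).card ≤ 2 * k := by
  refine ⟨24 * ((Δ : ℝ) + 3) ^ 2, by positivity, ?_⟩
  intro V _ D B C κ γ L k h hκ _ hγ hD hL hV
  have hΔ : (0 : ℝ) ≤ (Δ : ℝ) := Nat.cast_nonneg _
  have hk : (0 : ℝ) ≤ (k : ℝ) := Nat.cast_nonneg _
  have hL0 : 0 ≤ L := le_trans (by positivity) hL
  have hfr := cf_fr h hκ hγ hL0 hD hV
  -- size of the star families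
  have hsize : ∀ S : Finset V,
      L / 6 ≤ ((Δ : ℝ) + 1) + 2 * ((Δ : ℝ) + 2) * (S.card : ℝ) →
      (((Δ + 3) * k : ℕ) : ℝ) * 2 ≤ (S.card : ℝ) := by
    intro S hS
    by_contra hcon
    push Not at hcon
    push_cast at hcon
    have e1 : 2 * ((Δ : ℝ) + 2) * (S.card : ℝ) ≤
        2 * ((Δ : ℝ) + 2) * (((Δ : ℝ) + 3) * (k : ℝ) * 2) :=
      mul_le_mul_of_nonneg_left hcon.le (by positivity)
    have e2 : 4 * ((Δ : ℝ) + 3) ^ 2 * ((k : ℝ) + 1) ≤ L / 6 := by linarith
    nlinarith [mul_nonneg hΔ hk, mul_nonneg (mul_nonneg hΔ hΔ) hk]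
  -- first family
  obtain ⟨l, hl⟩ : ∃ l : Bool, 2 * (univ.filter fun u => ¬ Fr D B C γ u false l).card ≤
      Fintype.card V := by
    have hdis : Disjoint (univ.filter fun u => ¬ Fr D B C γ u false true)
        (univ.filter fun u => ¬ Fr D B C γ u false false) := by
      rw [Finset.disjoint_filter]
      intro u _ h1 h2
      rcases hfr u false true with h3 | h3
      · exact h1 h3
      · exact h2 h3
    have h1 := Finset.card_le_univ ((univ.filter fun u => ¬ Fr D B C γ u false true) ∪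
        (univ.filter fun u => ¬ Fr D B C γ u false false))
    rw [Finset.card_union_of_disjoint hdis] at h1
    by_cases h2 : (univ.filter fun u => ¬ Fr D B C γ u false true).card ≤
        (univ.filter fun u => ¬ Fr D B C γ u false false).card
    · exact ⟨true, by omega⟩
    · exact ⟨false, by omega⟩
  obtain ⟨S, lv, hSX, hst, hSc⟩ := cf_star Δ h hκ hγ hL0 hD hV false (!l)
    (univ.filter fun u => Fr D B C γ u false l) (univ.filter fun u => ¬ Fr D B C γ u false l) ∅
    (by intro u; by_cases hu : Fr D B C γ u false l <;> simp [hu]) (by simp) (by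
      have : 2 * ((univ.filter fun u => ¬ Fr D B C γ u false l).card : ℝ) ≤
        (Fintype.card V : ℝ) := by exact_mod_cast hl
      simp only [Finset.card_empty, Nat.cast_zero, add_zero]
      linarith)
  have hS2 := hsize S hSc
  obtain ⟨o, ho⟩ : ∃ o : V → Bool, ∀ u, Fr D B C γ u true (o u) := by
    refine ⟨fun u => if Fr D B C γ u true true then true else false, fun u => ?_⟩
    change Fr D B C γ u true (if Fr D B C γ u true true then true else false)
    split_ifs with h1
    · exact h1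
    · exact (hfr u true true).resolve_left h1
  obtain ⟨o₀, ho₀⟩ := cf_maj S o
  have hS3 : (Δ + 3) * k * 2 ≤ S.card := by exact_mod_cast hS2
  have hk3 : k ≤ (Δ + 3) * k := by nlinarith
  obtain ⟨F₀, hF₀, hF₀c⟩ := Finset.exists_subset_card_eq
    (show k ≤ (S.filter fun u => o u = o₀).card by omega)
  have hF₀S : F₀ ⊆ S := hF₀.trans (Finset.filter_subset _ _)
  have hStk0 : Stk D Δ F₀ ∅ (fun _ => false) lv := by
    refine ⟨fun u hu j => (hst.adj u (hF₀S hu) j).2.1, fun u hu j hh => ?_,
      fun u hu u' hu' j j' hh => hst.inj u (hF₀S hu) u' (hF₀S hu') j j' hh⟩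
    rw [Finset.union_empty] at hh
    exact (hst.adj u (hF₀S hu) j).2.2 (hF₀S hh)
  have hfree0 : ∀ u ∈ F₀, ∀ l', Us D B C γ F₀ (fun _ => false) lv u false l' := by
    intro u hu l'
    by_cases hll : l' = l
    · left
      rw [hll]
      have := hSX (hF₀S hu)
      simpa using this
    · right
      refine ⟨hu, rfl, fun j => ?_⟩
      have : l' = !l := by cases l <;> cases l' <;> simp_all
      rw [this]
      exact (hst.adj u (hF₀S hu) j).1
  have hout0 : ∀ u ∈ F₀, Us D B C γ F₀ (fun _ => false) lv u true o₀ := by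
    intro u hu
    left
    have := (Finset.mem_filter.1 (hF₀ hu)).2
    rw [← this]
    exact ho u
  -- second family
  by_cases hA : k + (Δ + 2) * F₀.card + (∅ : Finset V).card ≤
      (univ.filter fun u => Fr D B C γ u false o₀ ∧ Fr D B C γ u true (!o₀)).card
  · obtain ⟨K', hK'A, hK'c, hK'd, hStk⟩ := stkConn hStk0
      (univ.filter fun u => Fr D B C γ u false o₀ ∧ Fr D B C γ u true (!o₀)) k hA
    refine cf_join (F₀ := F₀) (F₁ := K') (o₀ := o₀) (fun _ => true) hStk (Finset.Subset.refl _)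
      ?_ ?_ hF₀c hK'c hfree0 hout0 ?_ (by simp) ?_
    · rw [Finset.empty_union]
      exact Finset.subset_union_right
    · rw [Finset.union_empty] at hK'd
      exact hK'd.symm
    · intro u hu s
      left
      have := (Finset.mem_filter.1 (hK'A hu)).2
      cases s
      · rw [Bool.xor_false]; exact this.1
      · rw [Bool.xor_true]; exact this.2
    · rw [Finset.empty_union]
      refine (Finset.card_union_le _ _).trans ?_
      omega
  · rw [hF₀c, Finset.card_empty] at hA
    push Not at hA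
    have hA' : ((univ.filter fun u => Fr D B C γ u false o₀ ∧ Fr D B C γ u true (!o₀)).card : ℝ)
        ≤ L := by
      have e1 : ((univ.filter fun u =>
          Fr D B C γ u false o₀ ∧ Fr D B C γ u true (!o₀)).card : ℝ) ≤
          ((k + (Δ + 2) * k + 0 : ℕ) : ℝ) := by exact_mod_cast hA.le
      push_cast at e1
      nlinarith [mul_nonneg hΔ hk, mul_nonneg (mul_nonneg hΔ hΔ) hk]
    obtain ⟨A', hA'e⟩ : ∃ A' : Finset V, A' = univ.filter fun u =>
      Fr D B C γ u false o₀ ∧ Fr D B C γ u true (!o₀) := ⟨_, rfl⟩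
    obtain ⟨Θ, hΘ⟩ : ∃ Θ : Finset V, Θ = univ.filter fun u =>
      ¬ Fr D B C γ u false o₀ ∧ Fr D B C γ u true (!o₀) := ⟨_, rfl⟩
    obtain ⟨Ξ, hΞ⟩ : ∃ Ξ : Finset V, Ξ = univ.filter fun u =>
      Fr D B C γ u false o₀ ∧ ¬ Fr D B C γ u true (!o₀) := ⟨_, rfl⟩
    obtain ⟨M, hM⟩ : ∃ M : Finset V, M = univ.filter fun u =>
      ¬ Fr D B C γ u false o₀ ∧ ¬ Fr D B C γ u true (!o₀) := ⟨_, rfl⟩
    rw [← hA'e] at hA'
    have hpart : A'.card + Θ.card + Ξ.card + M.card = Fintype.card V := by
      have e1 := Finset.card_filter_add_card_filter_not (s := (univ : Finset V))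
        (fun u => Fr D B C γ u false o₀)
      have e2 := Finset.card_filter_add_card_filter_not
        (s := univ.filter fun u => Fr D B C γ u false o₀) (fun u => Fr D B C γ u true (!o₀))
      have e3 := Finset.card_filter_add_card_filter_not
        (s := univ.filter fun u => ¬ Fr D B C γ u false o₀) (fun u => Fr D B C γ u true (!o₀))
      rw [Finset.filter_filter, Finset.filter_filter] at e2 e3
      rw [Finset.card_univ] at e1
      rw [hA'e, hΘ, hΞ, hM]
      omega
    have hpart' : (A'.card : ℝ) + (Θ.card : ℝ) + (Ξ.card : ℝ) + (M.card : ℝ) =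
        (Fintype.card V : ℝ) := by exact_mod_cast hpart
    have hcov : ∀ u, u ∈ A' ∨ u ∈ Θ ∨ u ∈ Ξ ∨ u ∈ M := by
      intro u
      rw [hA'e, hΘ, hΞ, hM]
      simp only [Finset.mem_filter, Finset.mem_univ, true_and]
      tauto
    have hdA1 : (A' ∪ Ξ).card ≤ A'.card + Ξ.card := Finset.card_union_le _ _
    have hdA2 : (A' ∪ Θ).card ≤ A'.card + Θ.card := Finset.card_union_le _ _
    have hdA1' : ((A' ∪ Ξ).card : ℝ) ≤ (A'.card : ℝ) + (Ξ.card : ℝ) := by exact_mod_cast hdA1
    have hdA2' : ((A' ∪ Θ).card : ℝ) ≤ (A'.card : ℝ) + (Θ.card : ℝ) := by exact_mod_cast hdA2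
    have hbig : ∀ S' : Finset V,
        L / 6 ≤ ((Δ : ℝ) + 1) + 2 * ((Δ : ℝ) + 2) * (S'.card : ℝ) →
        k + (Δ + 2) * F₀.card + (∅ : Finset V).card ≤ S'.card := by
      intro S' hS'
      have e1 := hsize S' hS'
      have e2 : (Δ + 3) * k * 2 ≤ S'.card := by exact_mod_cast e1
      rw [hF₀c, Finset.card_empty]
      nlinarith
    by_cases hxy : Ξ.card ≤ Θ.card
    · -- stars with centres in Θ
      have hxy' : (Ξ.card : ℝ) ≤ (Θ.card : ℝ) := by exact_mod_cast hxy
      obtain ⟨S', lv', hS'X, hst', hS'c⟩ := cf_star Δ h hκ hγ hL0 hD hV false o₀ Θ (A' ∪ Ξ) M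
        (by intro u; rcases hcov u with h1 | h1 | h1 | h1 <;> simp [h1])
        (by intro u hu; rw [hM] at hu; exact (Finset.mem_filter.1 hu).2.1)
        (by linarith)
      obtain ⟨S₂, dl₂, lv₂, hS₂, hS₂c, hS₂d, hStk, hold, hnew⟩ := stkAdd hStk0 false S'
        (sd B C o₀) lv' hst' k (hbig S' hS'c)
      refine cf_join (F₀ := F₀) (F₁ := S₂) (o₀ := o₀) (fun s => s) hStk
        Finset.subset_union_left ?_ ?_ hF₀c hS₂c
        (fun u hu l' => us_mono Finset.subset_union_left hold (hfree0 u hu l'))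
        (fun u hu => us_mono Finset.subset_union_left hold (hout0 u hu)) ?_ ?_ ?_
      · exact Finset.subset_union_right.trans Finset.subset_union_left
      · rw [Finset.union_empty] at hS₂d
        exact hS₂d.symm
      · intro u hu s
        have h1 := hS'X (hS₂ hu)
        rw [hΘ] at h1
        have h2 := (Finset.mem_filter.1 h1).2
        cases s
        · rw [Bool.xor_false]
          right
          refine ⟨Finset.mem_union_right _ hu, (hnew u hu).1, fun j => ?_⟩
          rw [(hnew u hu).2]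
          exact (hst'.adj u (hS₂ hu) j).1
        · rw [Bool.xor_true]
          left
          exact h2.2
      · intro u hu s hs l'
        have h1 := hS'X (hS₂ hu)
        rw [hΘ] at h1
        have h2 := (Finset.mem_filter.1 h1).2
        rw [hs]
        by_cases hl' : l' = o₀
        · right
          refine ⟨Finset.mem_union_right _ hu, (hnew u hu).1, fun j => ?_⟩
          rw [(hnew u hu).2, hl']
          exact (hst'.adj u (hS₂ hu) j).1
        · left
          have : l' = !o₀ := by cases o₀ <;> cases l' <;> simp_all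
          rw [this]
          exact (hfr u false o₀).resolve_left h2.1
      · rw [Finset.union_empty]
        refine (Finset.card_union_le _ _).trans ?_
        omega
    · -- stars with centres in Ξ
      have hxy' : (Θ.card : ℝ) ≤ (Ξ.card : ℝ) := by exact_mod_cast (not_le.1 hxy).le
      obtain ⟨S', lv', hS'X, hst', hS'c⟩ := cf_star Δ h hκ hγ hL0 hD hV true (!o₀) Ξ
        (A' ∪ Θ) M
        (by intro u; rcases hcov u with h1 | h1 | h1 | h1 <;> simp [h1])
        (by intro u hu; rw [hM] at hu; exact (Finset.mem_filter.1 hu).2.2)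
        (by linarith)
      obtain ⟨S₂, dl₂, lv₂, hS₂, hS₂c, hS₂d, hStk, hold, hnew⟩ := stkAdd hStk0 true S'
        (sd B C (!o₀)) lv' hst' k (hbig S' hS'c)
      refine cf_join (F₀ := F₀) (F₁ := S₂) (o₀ := o₀) (fun s => !s) hStk
        Finset.subset_union_left ?_ ?_ hF₀c hS₂c
        (fun u hu l' => us_mono Finset.subset_union_left hold (hfree0 u hu l'))
        (fun u hu => us_mono Finset.subset_union_left hold (hout0 u hu)) ?_ ?_ ?_
      · exact Finset.subset_union_right.trans Finset.subset_union_left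
      · rw [Finset.union_empty] at hS₂d
        exact hS₂d.symm
      · intro u hu s
        have h1 := hS'X (hS₂ hu)
        rw [hΞ] at h1
        have h2 := (Finset.mem_filter.1 h1).2
        cases s
        · rw [Bool.xor_false]
          left
          exact h2.1
        · rw [Bool.xor_true]
          right
          refine ⟨Finset.mem_union_right _ hu, (hnew u hu).1, fun j => ?_⟩
          rw [(hnew u hu).2]
          exact (hst'.adj u (hS₂ hu) j).1
      · intro u hu s hs l'
        have h1 := hS'X (hS₂ hu)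
        rw [hΞ] at h1
        have h2 := (Finset.mem_filter.1 h1).2
        have hs' : s = true := by simpa using hs
        rw [hs']
        by_cases hl' : l' = !o₀
        · right
          refine ⟨Finset.mem_union_right _ hu, (hnew u hu).1, fun j => ?_⟩
          rw [(hnew u hu).2, hl']
          exact (hst'.adj u (hS₂ hu) j).1
        · left
          have : l' = o₀ := by cases o₀ <;> cases l' <;> simp_all
          rw [this]
          have h3 := hfr u true (!o₀)
          rw [Bool.not_not] at h3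
          exact h3.resolve_left h2.2
      · rw [Finset.union_empty]
        refine (Finset.card_union_le _ _).trans ?_
        omega

end

end OT
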