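import Pool.Agent.Helper37.EX.St

/-!
# Project EX, module X2: RL is contained in Fac C0
-/

set_option autoImplicit false

namespace Pool.Agent.Helper37.EX

open Pool.Agent.Helper31.BD Pool.Agent.Helper37.DE

private theorem suf_X2 {u w : List ℕ} (h : u ++ w ∈ RL) : w ∈ RL := by
  have hs : w <:+: u ++ w := (List.suffix_append u w).isInfix
  exact ⟨fun a ha => h.1 a (by simp [ha]), fun h1 => h.2.1 (h1.trans hs), fun h1 => h.2.2 (h1.trans hs)⟩

private theorem mon_app_X2 {C : Finset (List ℕ)} {y z : List ℕ} (hy : y ∈ Mon C) (hz : z ∈ Mon C) : y ++ z ∈ Mon C := by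
  obtain ⟨l, hl, rfl⟩ := hy
  obtain ⟨l', hl', rfl⟩ := hz
  refine ⟨l ++ l', fun c hc => ?_, by simp⟩
  rcases List.mem_append.1 hc with h | h
  · exact hl c h
  · exact hl' c h

private theorem main_X2 (h1 : StX1) : ∀ (k : ℕ) (w : List ℕ), w.length ≤ k →
    ([0, 0] ++ w ∈ RL → ∃ v : List ℕ, ∀ n : ℕ, 2 ≤ n → List.replicate n 0 ++ w ++ v ∈ Mon C0) ∧
    ([1, 1] ++ w ∈ RL → ∃ v : List ℕ, ∀ n m : ℕ, 2 ≤ n → 2 ≤ m →
      List.replicate n 0 ++ List.replicate m 1 ++ w ++ v ∈ Mon C0) := by
  intro k
  induction k with
  | zero =>
    intro w hw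
    have : w = [] := List.length_eq_zero_iff.1 (by omega)
    subst this
    exact ⟨fun _ => ⟨[1, 1], fun n hn => by simpa using h1 n 2 hn le_rfl⟩,
      fun _ => ⟨[], fun n m hn hm => by simpa using h1 n m hn hm⟩⟩
  | succ k ih =>
    intro w hw
    cases w with
    | nil =>
      exact ⟨fun _ => ⟨[1, 1], fun n hn => by simpa using h1 n 2 hn le_rfl⟩,
        fun _ => ⟨[], fun n m hn hm => by simpa using h1 n m hn hm⟩⟩
    | cons a w =>
      simp only [List.length_cons] at hw
      have e00 : [0, 0] ∈ Mon C0 := ⟨[[0, 0]], by intro c hc; simp at hc; subst hc; simp [C0], by simp⟩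
      constructor
      · intro hr
        have ha : a < 2 := hr.1 a (by simp)
        interval_cases a
        · have hr' : [0, 0] ++ w ∈ RL := suf_X2 (u := [0]) (by simpa using hr)
          obtain ⟨v, hv⟩ := (ih w (by omega)).1 hr'
          refine ⟨v, fun n hn => ?_⟩
          have h2 := hv (n + 1) (by omega)
          rw [List.replicate_succ'] at h2
          simpa using h2
        · cases w with
          | nil => exact ⟨[1], fun n hn => by simpa using h1 n 2 hn le_rfl⟩
          | cons b w =>
            have hb : b < 2 := hr.1 b (by simp)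
            simp only [List.length_cons] at hw
            interval_cases b
            · exfalso
              apply hr.2.1
              exact ⟨[0], w, by simp⟩
            · have hr' : [1, 1] ++ w ∈ RL := suf_X2 (u := [0, 0]) (by simpa using hr)
              obtain ⟨v, hv⟩ := (ih w (by omega)).2 hr'
              refine ⟨v, fun n hn => ?_⟩
              have h2 := hv n 2 hn le_rfl
              simpa using h2
      · intro hr
        have ha : a < 2 := hr.1 a (by simp)
        interval_cases a
        · cases w with
          | nil =>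
            refine ⟨[0], fun n m hn hm => ?_⟩
            have h2 := mon_app_X2 (h1 n m hn hm) e00
            simpa using h2
          | cons b w =>
            have hb : b < 2 := hr.1 b (by simp)
            simp only [List.length_cons] at hw
            interval_cases b
            · have hr' : [0, 0] ++ w ∈ RL := suf_X2 (u := [1, 1]) (by simpa using hr)
              obtain ⟨v, hv⟩ := (ih w (by omega)).1 hr'
              refine ⟨v, fun n m hn hm => ?_⟩
              have h2 := mon_app_X2 (h1 n m hn hm) (hv 2 le_rfl)
              simpa using h2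
            · exfalso
              apply hr.2.2
              exact ⟨[1], w, by simp⟩
        · have hr' : [1, 1] ++ w ∈ RL := suf_X2 (u := [1]) (by simpa using hr)
          obtain ⟨v, hv⟩ := (ih w (by omega)).2 hr'
          refine ⟨v, fun n m hn hm => ?_⟩
          have h2 := hv n (m + 1) hn (by omega)
          rw [List.replicate_succ'] at h2
          simpa using h2

private theorem ext_X2 {a : ℕ} {w : List ℕ} (h : a :: w ∈ RL) : [a, a] ++ (a :: w) ∈ RL := by
  have ha : a < 2 := h.1 a (by simp)
  refine ⟨fun b hb => ?_, fun h2 => ?_, fun h2 => ?_⟩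
  · simp only [List.cons_append, List.nil_append, List.mem_cons] at hb
    rcases hb with rfl | rfl | hb
    · exact ha
    · exact ha
    · exact h.1 b (by simpa using hb)
  · simp only [List.cons_append, List.nil_append, List.infix_cons_iff (l₂ := a :: a :: w), List.infix_cons_iff (l₂ := a :: w)] at h2
    rcases h2 with h2 | h2 | h2
    · simp only [List.cons_prefix_cons] at h2
      omega
    · simp only [List.cons_prefix_cons] at h2
      omega
    · exact h.2.1 h2
  · simp only [List.cons_append, List.nil_append, List.infix_cons_iff (l₂ := a :: a :: w), List.infix_cons_iff (l₂ := a :: w)] at h2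
    rcases h2 with h2 | h2 | h2
    · simp only [List.cons_prefix_cons] at h2
      omega
    · simp only [List.cons_prefix_cons] at h2
      omega
    · exact h.2.2 h2

theorem hX2 (h1 : StX1) : StX2 := by
  intro w hw
  cases w with
  | nil => exact ⟨[], [], [], by intro c hc; simp at hc, by simp⟩
  | cons a w =>
    have ha : a < 2 := hw.1 a (by simp)
    have he := ext_X2 hw
    interval_cases a
    · obtain ⟨v, hv⟩ := (main_X2 h1 _ (0 :: w) le_rfl).1 he
      obtain ⟨l, hl, h2⟩ := hv 2 le_rfl
      exact ⟨List.replicate 2 0, v, l, hl, h2⟩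
    · obtain ⟨v, hv⟩ := (main_X2 h1 _ (1 :: w) le_rfl).2 he
      obtain ⟨l, hl, h2⟩ := hv 2 2 le_rfl le_rfl
      exact ⟨List.replicate 2 0 ++ List.replicate 2 1, v, l, hl, h2⟩

end Pool.Agent.Helper37.EX
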