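import Pool.Agent.Helper37.EX.St

/-!
# Project EX (MP_93aa28_lc): module X3
-/

set_option autoImplicit false

namespace Pool.Agent.Helper37.EX

open Pool.Agent.Helper31.BD Pool.Agent.Helper37.DE

namespace X3

theorem key (l : List (List ℕ)) : Over C0 l →
    (∀ a ∈ l.flatten, a < 2) ∧ ¬ [0, 1, 0] <:+: l.flatten ∧ ¬ [1, 0, 1] <:+: l.flatten ∧
      (l.flatten = [] ∨ (∃ r, l.flatten = 0 :: 0 :: r) ∨ ∃ r, l.flatten = 1 :: 1 :: r) := by
  induction l with
  | nil =>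
    intro _
    refine ⟨by simp, by simp, by simp, by simp⟩
  | cons c l ih =>
    intro h
    have hc : c ∈ C0 := h c (by simp)
    have hl : Over C0 l := fun d hd => h d (List.mem_cons_of_mem _ hd)
    obtain ⟨h1, h2, h3, h4⟩ := ih hl
    rw [List.flatten_cons]
    generalize l.flatten = s at h1 h2 h3 h4
    have hc' : c = [0, 0] ∨ c = [1, 1] ∨ c = [0, 0, 0, 1, 1] ∨ c = [0, 0, 1, 1, 1] ∨
        c = [0, 0, 0, 1, 1, 1] := by simpa [C0] using hc
    rcases hc' with rfl | rfl | rfl | rfl | rfl <;>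
    rcases h4 with rfl | ⟨r, rfl⟩ | ⟨r, rfl⟩ <;>
    refine ⟨?_, ?_, ?_, ?_⟩ <;>
    simp_all [List.infix_cons_iff, List.cons_prefix_cons]

end X3

open X3 in
theorem hX3 : StX3 := by
  rintro w ⟨u, v, l, hl, he⟩
  obtain ⟨h1, h2, h3, _⟩ := key l hl
  have hw : w <:+: l.flatten := ⟨u, v, he⟩
  exact ⟨fun a ha => h1 a (hw.subset ha), fun h => h2 (h.trans hw), fun h => h3 (h.trans hw)⟩

end Pool.Agent.Helper37.EX
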