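import Pool.Agent.Helper37.EX.St

/-!
# Project EX, module X4: C0 is a code
-/

set_option autoImplicit false

namespace Pool.Agent.Helper37.EX

open Pool.Agent.Helper31.BD Pool.Agent.Helper37.DE

private theorem cases_X4 {c : List ℕ} (hc : c ∈ C0) :
    c = [0, 0] ∨ c = [1, 1] ∨ c = [0, 0, 0, 1, 1] ∨ c = [0, 0, 1, 1, 1] ∨ c = [0, 0, 0, 1, 1, 1] := by
  simpa [C0] using hc

private theorem tail_X4 {c : List ℕ} {l : List (List ℕ)} (h : Over C0 (c :: l)) :
    c ∈ C0 ∧ Over C0 l :=
  ⟨h c (by simp), fun d hd => h d (by simp [hd])⟩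

/-- no product begins with `01` -/
private theorem no01_X4 {l : List (List ℕ)} (h : Over C0 l) (r : List ℕ) :
    l.flatten ≠ 0 :: 1 :: r := by
  intro he
  cases l with
  | nil => simp at he
  | cons c l =>
    obtain ⟨hc, _⟩ := tail_X4 h
    rcases cases_X4 hc with rfl | rfl | rfl | rfl | rfl <;> simp at he

/-- a product beginning with `1` -/
private theorem one_X4 {l : List (List ℕ)} (h : Over C0 l) {r : List ℕ}
    (he : l.flatten = 1 :: r) : ∃ l', l = [1, 1] :: l' ∧ Over C0 l' ∧ r = 1 :: l'.flatten := by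
  cases l with
  | nil => simp at he
  | cons c l =>
    obtain ⟨hc, hl⟩ := tail_X4 h
    rcases cases_X4 hc with rfl | rfl | rfl | rfl | rfl
    · simp at he
    · refine ⟨l, rfl, hl, ?_⟩
      simp at he
      exact he.symm
    · simp at he
    · simp at he
    · simp at he

private theorem no1_X4 : ∀ (n : ℕ) (l l' : List (List ℕ)), l.length + l'.length ≤ n →
    Over C0 l → Over C0 l' → l'.flatten ≠ 1 :: l.flatten := by
  intro n
  induction n with
  | zero =>
    intro l l' hn _ _ he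
    have : l' = [] := List.length_eq_zero_iff.1 (by omega)
    rw [this] at he
    simp at he
  | succ n ih =>
    intro l l' hn hl hl' he
    obtain ⟨l'', rfl, h1, h2⟩ := one_X4 hl' he
    refine ih l'' l ?_ h1 hl h2
    simp only [List.length_cons] at hn
    omega

private theorem no1'_X4 {l l' : List (List ℕ)} (hl : Over C0 l) (hl' : Over C0 l') :
    l'.flatten ≠ 1 :: l.flatten := no1_X4 _ l l' le_rfl hl hl'

private theorem no111_X4 {l l' : List (List ℕ)} (hl : Over C0 l) (hl' : Over C0 l') :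
    l'.flatten ≠ 1 :: 1 :: 1 :: l.flatten := by
  intro he
  obtain ⟨l'', rfl, h1, h2⟩ := one_X4 hl' he
  simp only [List.cons.injEq, true_and] at h2
  exact no1'_X4 hl h1 h2.symm

private theorem step_X4 {c1 c2 : List ℕ} {l1 l2 : List (List ℕ)} (h1 : c1 ∈ C0) (h2 : c2 ∈ C0)
    (hl1 : Over C0 l1) (hl2 : Over C0 l2) (he : c1 ++ l1.flatten = c2 ++ l2.flatten) :
    c1 = c2 ∧ l1.flatten = l2.flatten := by
  rcases cases_X4 h1 with rfl | rfl | rfl | rfl | rfl <;>
  rcases cases_X4 h2 with rfl | rfl | rfl | rfl | rfl <;>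
  simp at he ⊢ <;>
  first
  | exact he
  | exact no01_X4 hl1 _ he
  | exact no01_X4 hl2 _ he.symm
  | exact no111_X4 hl2 hl1 he
  | exact no111_X4 hl1 hl2 he.symm
  | exact no1'_X4 hl2 hl1 he
  | exact no1'_X4 hl1 hl2 he.symm

theorem hX4 : StX4 := by
  intro l1
  induction l1 with
  | nil =>
    intro l2 _ h2 he
    cases l2 with
    | nil => rfl
    | cons c l =>
      obtain ⟨hc, _⟩ := tail_X4 h2
      rcases cases_X4 hc with rfl | rfl | rfl | rfl | rfl <;> simp at he
  | cons c1 l1 ih =>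
    intro l2 h1 h2 he
    obtain ⟨hc1, hl1⟩ := tail_X4 h1
    cases l2 with
    | nil =>
      rcases cases_X4 hc1 with rfl | rfl | rfl | rfl | rfl <;> simp at he
    | cons c2 l2 =>
      obtain ⟨hc2, hl2⟩ := tail_X4 h2
      rw [List.flatten_cons, List.flatten_cons] at he
      obtain ⟨hc, hf⟩ := step_X4 hc1 hc2 hl1 hl2 he
      rw [hc, ih l2 hl1 hl2 hf]

end Pool.Agent.Helper37.EX
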