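import Pool.Agent.Helper37.EX.St

/-!
# Project EX, module X5: the words of a code that generates RL
-/

set_option autoImplicit false

namespace Pool.Agent.Helper37.EX

open Pool.Agent.Helper31.BD Pool.Agent.Helper37.DE

/-- a long factor of a product contains a whole word of the product -/
private theorem whole_X5 {D : ℕ} : ∀ (l : List (List ℕ)) (u w v : List ℕ), (∀ c ∈ l, c.length ≤ D) →
    2 * D + 1 ≤ w.length → u ++ (w ++ v) = l.flatten → ∃ c ∈ l, c <:+: w := by
  intro l
  induction l with
  | nil =>
    intro u w v _ hw he
    have := congrArg List.length he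
    simp only [List.length_append, List.flatten_nil, List.length_nil] at this
    omega
  | cons c l ih =>
    intro u w v hl hw he
    have hc := hl c (by simp)
    have hl' : ∀ d ∈ l, d.length ≤ D := fun d hd => hl d (by simp [hd])
    rw [List.flatten_cons, List.append_eq_append_iff] at he
    rcases he with ⟨s, h1, h2⟩ | ⟨s, h1, h2⟩
    · have hs : s.length ≤ D := by
        have := congrArg List.length h1
        simp at this
        omega
      rw [List.append_eq_append_iff] at h2
      rcases h2 with ⟨t, h3, h4⟩ | ⟨t, h3, h4⟩
      · exfalso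
        have := congrArg List.length h3
        simp at this
        omega
      · have ht : D + 1 ≤ t.length := by
          have := congrArg List.length h3
          simp at this
          omega
        cases l with
        | nil =>
          exfalso
          have := congrArg List.length h4
          simp at this
          omega
        | cons d l =>
          have hd := hl' d (by simp)
          rw [List.flatten_cons, List.append_eq_append_iff] at h4
          rcases h4 with ⟨x, h5, _⟩ | ⟨x, h5, _⟩
          · refine ⟨d, by simp, s, x, ?_⟩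
            rw [h3, h5]
            simp
          · exfalso
            have := congrArg List.length h5
            simp at this
            omega
    · obtain ⟨d, hd, h3⟩ := ih s w v hl' hw h2.symm
      exact ⟨d, by simp [hd], h3⟩

private theorem rep_X5 (N a : ℕ) (ha : a < 2) : List.replicate N a ∈ RL := by
  refine ⟨fun b hb => by rw [List.eq_of_mem_replicate hb]; exact ha, fun h => ?_, fun h => ?_⟩
  · have h0 := List.eq_of_mem_replicate (h.subset (show (0 : ℕ) ∈ [0, 1, 0] by simp))
    have h1 := List.eq_of_mem_replicate (h.subset (show (1 : ℕ) ∈ [0, 1, 0] by simp))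
    omega
  · have h0 := List.eq_of_mem_replicate (h.subset (show (0 : ℕ) ∈ [1, 0, 1] by simp))
    have h1 := List.eq_of_mem_replicate (h.subset (show (1 : ℕ) ∈ [1, 0, 1] by simp))
    omega

private theorem forb_X5 {a b : ℕ} (ha : a < 2) (hb : b < 2) (hab : a ≠ b) {w : List ℕ} (hw : w ∈ RL) :
    ¬ [b, a, b] <:+: w := by
  interval_cases a <;> interval_cases b
  · exact absurd rfl hab
  · exact hw.2.2
  · exact hw.2.1
  · exact absurd rfl hab

private theorem pow_X5 {C : Finset (List ℕ)} (h0 : [] ∉ C) (hF : Fac C = RL) {a : ℕ} (ha : a < 2) :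
    ∃ m, 1 ≤ m ∧ List.replicate m a ∈ C := by
  set D := C.sup List.length with hD
  have h1 : List.replicate (2 * D + 1) a ∈ Fac C := by
    rw [hF]
    exact rep_X5 _ a ha
  obtain ⟨u, v, l, hl, he⟩ := h1
  obtain ⟨c, hc, hcw⟩ := whole_X5 (D := D) l u (List.replicate (2 * D + 1) a) v
    (fun c hc => Finset.le_sup (f := List.length) (hl c hc)) (by simp) (by simpa using he)
  have h2 : c = List.replicate c.length a :=
    List.eq_replicate_of_mem fun b hb => List.eq_of_mem_replicate (hcw.subset hb)
  refine ⟨c.length, ?_, by rw [← h2]; exact hl c hc⟩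
  by_contra h3
  have h4 : c = [] := List.length_eq_zero_iff.1 (by omega)
  exact h0 (h4 ▸ hl c hc)

/-- no word of the code begins with a run of length one -/
private theorem begin_X5 {C : Finset (List ℕ)} (h0 : [] ∉ C) (hF : Fac C = RL) {a b : ℕ} (ha : a < 2) (hb : b < 2)
    (hab : a ≠ b) {c : List ℕ} (hc : a :: b :: c ∈ C) : False := by
  obtain ⟨m, hm, hmC⟩ := pow_X5 h0 hF hb
  have h1 : List.replicate m b ++ a :: b :: c ∈ RL := by
    rw [← hF]
    refine ⟨[], [], [List.replicate m b, a :: b :: c], fun d hd => ?_, by simp⟩
    simp at hd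
    rcases hd with rfl | rfl
    · exact hmC
    · exact hc
  apply forb_X5 ha hb hab h1
  obtain ⟨m, rfl⟩ := Nat.exists_eq_add_of_le' hm
  exact ⟨List.replicate m b, c, by rw [List.replicate_succ']; simp⟩

private theorem single_X5 {C : Finset (List ℕ)} (h0 : [] ∉ C) (hF : Fac C = RL) {a b : ℕ} (ha : a < 2) (hb : b < 2)
    (hab : a ≠ b) (hc : [a] ∈ C) : False := by
  obtain ⟨m, hm, hmC⟩ := pow_X5 h0 hF hb
  have h1 : List.replicate m b ++ [a] ++ List.replicate m b ∈ RL := by
    rw [← hF]
    refine ⟨[], [], [List.replicate m b, [a], List.replicate m b], fun d hd => ?_, by simp⟩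
    simp only [List.mem_cons, List.not_mem_nil, or_false] at hd
    rcases hd with rfl | rfl | rfl
    · exact hmC
    · exact hc
    · exact hmC
  apply forb_X5 ha hb hab h1
  obtain ⟨m, rfl⟩ := Nat.exists_eq_add_of_le' hm
  refine ⟨List.replicate m b, List.replicate m b, ?_⟩
  have e1 : List.replicate (m + 1) b ++ [a] ++ List.replicate (m + 1) b =
      (List.replicate m b ++ [b]) ++ [a] ++ (b :: List.replicate m b) := by
    rw [← List.replicate_succ', ← List.replicate_succ]
  rw [e1]
  simp

theorem hX5 : StX5 := by
  intro C h0 hF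
  have key : ∀ a b : ℕ, a < 2 → b < 2 → a ≠ b → ∃ m, 2 ≤ m ∧ List.replicate m a ∈ C := by
    intro a b ha hb hab
    obtain ⟨m, hm, hmC⟩ := pow_X5 h0 hF ha
    refine ⟨m, ?_, hmC⟩
    by_contra h
    have : m = 1 := by omega
    subst this
    exact single_X5 h0 hF ha hb hab (by simpa using hmC)
  refine ⟨key 0 1 (by norm_num) (by norm_num) (by norm_num), key 1 0 (by norm_num) (by norm_num) (by norm_num),
    fun c hc => ?_⟩
  have hcR : c ∈ RL := by
    rw [← hF]
    exact ⟨[], [], [c], fun d hd => by simp at hd; rw [hd]; exact hc, by simp⟩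
  cases c with
  | nil => exact absurd hc h0
  | cons a c =>
    have ha : a < 2 := hcR.1 a (by simp)
    cases c with
    | nil =>
      exfalso
      exact single_X5 h0 hF ha (b := 1 - a) (by omega) (by omega) hc
    | cons b c =>
      have hb : b < 2 := hcR.1 b (by simp)
      by_cases hab : a = b
      · subst hab
        interval_cases a
        · exact Or.inl ⟨c, rfl⟩
        · exact Or.inr ⟨c, rfl⟩
      · exact absurd hc (fun h => begin_X5 h0 hF ha hb hab h)

end Pool.Agent.Helper37.EX
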