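import Pool.Agent.Helper37.EX.St
import Pool.Agent.Helper31.BD.L

/-!
# Project EX (MP_93aa28_lc): module X6
-/

set_option autoImplicit false

namespace Pool.Agent.Helper37.EX

open Pool.Agent.Helper31.BD Pool.Agent.Helper37.DE

theorem x6_pre_cons {y : ℕ → ℕ} {k x : ℕ} {t : List ℕ} (h : pre y k = x :: t) : x = y 0 := by
  have hk : 0 < k := by
    have := congrArg List.length h
    rw [pre_length] at this
    simp at this
    omega
  have h1 := ma_pre_getD y hk
  rw [h] at h1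
  simpa using h1

theorem x6_pre_cons2 {y : ℕ → ℕ} {k x x' : ℕ} {t : List ℕ} (h : pre y k = x :: x' :: t) :
    x = y 0 ∧ x' = y 1 := by
  have hk : 1 < k := by
    have := congrArg List.length h
    rw [pre_length] at this
    simp at this
    omega
  refine ⟨x6_pre_cons h, ?_⟩
  have h1 := ma_pre_getD y hk
  rw [h] at h1
  simpa using h1

/-- no forbidden factor at the border -/
theorem x6_border {u p : List ℕ} {a x x' : ℕ} (hxx : x ≠ x') (hu : ¬ [x, x', x] <:+: u)
    (hp : ¬ [x, x', x] <:+: p) (h1 : ∀ z t, p = z :: t → z = a)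
    (h2 : ∀ z z' t, p = z :: z' :: t → z = a ∧ z' = a) (hs : x = a → ¬ [x, x'] <:+ u) :
    ¬ [x, x', x] <:+: u ++ p := by
  rintro ⟨s, t, h⟩
  rw [List.append_assoc] at h
  rcases List.append_eq_append_iff.1 h with ⟨c, hc1, hc2⟩ | ⟨c, hc1, hc2⟩
  · -- s ++ c = u, F ++ t = c ++ p
    match c, hc1, hc2 with
    | [], _, hc2 => exact hp ⟨[], t, by simpa using hc2⟩
    | [z], _, hc2 =>
      simp only [List.cons_append, List.nil_append, List.cons.injEq] at hc2
      obtain ⟨_, hc2⟩ := hc2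
      have h3 := h2 x' x t hc2.symm
      exact hxx (h3.2.trans h3.1.symm)
    | [z, z'], hc1, hc2 =>
      simp only [List.cons_append, List.nil_append, List.cons.injEq] at hc2
      obtain ⟨rfl, rfl, hc2⟩ := hc2
      have h3 := h1 x t hc2.symm
      exact hs h3 ⟨s, hc1.symm⟩
    | z :: z' :: z'' :: c'', hc1, hc2 =>
      simp only [List.cons_append, List.nil_append, List.cons.injEq] at hc2
      obtain ⟨rfl, rfl, rfl, hc2⟩ := hc2
      exact hu ⟨s, c'', by rw [hc1]; simp⟩
  · exact hp ⟨c, t, by rw [hc2]; simp⟩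

/-- followers of an infinite word beginning with `aa` -/
theorem x6_iff {a b : ℕ} (hab : (a = 0 ∧ b = 1) ∨ (a = 1 ∧ b = 0)) {y : ℕ → ℕ} (hy : y ∈ Fi RL)
    (h0 : y 0 = a) (h1 : y 1 = a) (u : List ℕ) :
    y ∈ Fi (quo RL u) ↔ u ∈ RL ∧ ¬ [a, b] <:+ u := by
  constructor
  · intro h
    constructor
    · have := h 0
      simpa [pre, quo] using this
    · rintro ⟨s, hs⟩
      have h2 : u ++ pre y 1 ∈ RL := h 1
      have h3 : pre y 1 = [a] := by simp [pre, h0]
      rw [h3, ← hs] at h2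
      obtain ⟨_, h4, h5⟩ := h2
      rcases hab with ⟨rfl, rfl⟩ | ⟨rfl, rfl⟩
      · exact h4 ⟨s, [], by simp⟩
      · exact h5 ⟨s, [], by simp⟩
  · rintro ⟨⟨hu1, hu2, hu3⟩, hs⟩ k
    show u ++ pre y k ∈ RL
    obtain ⟨hp1, hp2, hp3⟩ := hy k
    have e1 : ∀ z t, pre y k = z :: t → z = a := fun z t h => (x6_pre_cons h).trans h0
    have e2 : ∀ z z' t, pre y k = z :: z' :: t → z = a ∧ z' = a := fun z z' t h =>
      ⟨(x6_pre_cons2 h).1.trans h0, (x6_pre_cons2 h).2.trans h1⟩
    refine ⟨?_, ?_, ?_⟩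
    · intro c hc
      rcases List.mem_append.1 hc with h | h
      · exact hu1 c h
      · exact hp1 c h
    · refine x6_border (a := a) (by norm_num) hu2 hp2 e1 e2 ?_
      intro ha
      rcases hab with ⟨rfl, rfl⟩ | ⟨rfl, rfl⟩
      · exact hs
      · exact absurd ha (by norm_num)
    · refine x6_border (a := a) (by norm_num) hu3 hp3 e1 e2 ?_
      intro ha
      rcases hab with ⟨rfl, rfl⟩ | ⟨rfl, rfl⟩
      · exact absurd ha (by norm_num)
      · exact hs

theorem hX6 (h1 : StX5) : StX6 := by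
  intro C D h0 hF hD y
  obtain ⟨⟨m0, hm0, hc0⟩, ⟨m1, hm1, hc1⟩, hpre⟩ := h1 C h0 hF
  have fwd : ∀ y : ℕ → ℕ, y ∈ Om C → y ∈ Fi RL ∧ y 0 = y 1 := by
    intro y hy
    refine ⟨fun k => ?_, ?_⟩
    · have := pf_sub_fac (hy k)
      rwa [hF] at this
    · obtain ⟨c, hc, y', _, rfl⟩ := om_step h0 hy
      rcases hpre c hc with ⟨t, rfl⟩ | ⟨t, rfl⟩ <;> simp [app]
  refine ⟨fwd y, ?_⟩
  rintro ⟨hy, hyy⟩
  have hne : C.Nonempty := ⟨_, hc0⟩
  obtain ⟨z, hz⟩ := om_nonempty h0 hne
  have hlt : y 0 < 2 := by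
    have := (hy 1).1
    simpa [pre] using this
  have main : ∀ a b m : ℕ, ((a = 0 ∧ b = 1) ∨ (a = 1 ∧ b = 0)) → 2 ≤ m →
      List.replicate m a ∈ C → y 0 = a → y ∈ Om C := by
    intro a b m hab hm hc ha
    have hy0 : app (List.replicate m a) z ∈ Om C := by
      have := om_app (C := C) (l := [List.replicate m a]) (by
        intro d hd
        rw [List.mem_singleton.1 hd]
        exact hc) hz
      simpa using this
    have g := fwd _ hy0
    have e0 : app (List.replicate m a) z 0 = a := by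
      unfold app
      rw [if_pos (by simp; omega)]
      simp [List.getD, show 0 < m by omega]
    have e1 : app (List.replicate m a) z 1 = a := g.2 ▸ e0
    have heq : Eqv (Fac C) (app (List.replicate m a) z) y := by
      intro u
      rw [hF, x6_iff hab g.1 e0 e1 u, x6_iff hab hy ha (hyy ▸ ha) u]
    exact type_det h0 hne hD heq hy0
  have hcase : y 0 = 0 ∨ y 0 = 1 := by omega
  rcases hcase with h | h
  · exact main 0 1 m0 (Or.inl ⟨rfl, rfl⟩) hm0 hc0 h
  · exact main 1 0 m1 (Or.inr ⟨rfl, rfl⟩) hm1 hc1 h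

end Pool.Agent.Helper37.EX
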