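import Pool.Agent.Helper37.EX.St

/-!
# Project EX, module X7: no bounded delay, the one player game
-/

set_option autoImplicit false

namespace Pool.Agent.Helper37.EX

open Pool.Agent.Helper31.BD Pool.Agent.Helper37.DE

theorem X7_pre_succ (y : ℕ → ℕ) (k : ℕ) : pre y (k + 1) = pre y k ++ [y k] := by
  unfold pre
  rw [List.range_succ, List.map_append]
  rfl

/-- the infinite words over `{0,1}` without the factors `010`, `101` -/
theorem X7_fi (y : ℕ → ℕ) :
    y ∈ Fi RL ↔ (∀ i, y i < 2) ∧ ∀ i, y i = y (i + 1) ∨ y (i + 1) = y (i + 2) := by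
  constructor
  · intro h
    have h2 : ∀ i, y i < 2 := by
      intro i
      have h1 := (h (i + 1)).1
      apply h1
      rw [X7_pre_succ]
      simp
    refine ⟨h2, ?_⟩
    intro i
    by_contra hcon
    push Not at hcon
    obtain ⟨c1, c2⟩ := hcon
    have e : pre y (i + 3) = pre y i ++ [y i, y (i + 1), y (i + 2)] := by
      rw [X7_pre_succ, X7_pre_succ, X7_pre_succ]
      simp
    have hk := h (i + 3)
    rw [e] at hk
    have a0 := h2 i
    have a1 := h2 (i + 1)
    have a2 := h2 (i + 2)
    by_cases h0 : y i = 0
    · have h1 : y (i + 1) = 1 := by omega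
      have h3 : y (i + 2) = 0 := by omega
      rw [h0, h1, h3] at hk
      exact hk.2.1 ⟨pre y i, [], by simp⟩
    · have h0' : y i = 1 := by omega
      have h1 : y (i + 1) = 0 := by omega
      have h3 : y (i + 2) = 1 := by omega
      rw [h0', h1, h3] at hk
      exact hk.2.2 ⟨pre y i, [], by simp⟩
  · rintro ⟨h1, h2⟩ k
    have key : ∀ a b c : ℕ, [a, b, c] <:+: pre y k → ∃ i, y i = a ∧ y (i + 1) = b ∧
        y (i + 2) = c := by
      rintro a b c ⟨s, t, hst⟩
      have hlen : (pre y k).length = k := pre_length y k
      have hlen2 : s.length + 3 + t.length = k := by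
        rw [← hlen, ← hst]
        simp
        omega
      refine ⟨s.length, ?_, ?_, ?_⟩
      · rw [← ma_pre_getD y (k := k) (i := s.length) (by omega), ← hst]
        simp
      · rw [← ma_pre_getD y (k := k) (i := s.length + 1) (by omega), ← hst]
        simp
      · rw [← ma_pre_getD y (k := k) (i := s.length + 2) (by omega), ← hst]
        simp
    refine ⟨?_, ?_, ?_⟩
    · intro a ha
      unfold pre at ha
      obtain ⟨i, _, rfl⟩ := List.mem_map.1 ha
      exact h1 i
    · intro h
      obtain ⟨i, e1, e2, e3⟩ := key _ _ _ h
      rcases h2 i with h | h <;> omega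
    · intro h
      obtain ⟨i, e1, e2, e3⟩ := key _ _ _ h
      rcases h2 i with h | h <;> omega

theorem X7_cons (a : ℕ) (z : ℕ → ℕ) :
    app [a] z ∈ Fi RL ↔ a < 2 ∧ z ∈ Fi RL ∧ (a = z 0 ∨ z 0 = z 1) := by
  rw [X7_fi, X7_fi]
  constructor
  · rintro ⟨h1, h2⟩
    refine ⟨?_, ⟨?_, ?_⟩, ?_⟩
    · have := h1 0
      rwa [me_app_zero] at this
    · intro i
      have := h1 (i + 1)
      rwa [me_app_succ] at this
    · intro i
      have := h2 (i + 1)
      rwa [me_app_succ, me_app_succ, me_app_succ] at this
    · have := h2 0
      rwa [me_app_zero, me_app_succ, me_app_succ] at this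
  · rintro ⟨h0, ⟨h1, h2⟩, h3⟩
    constructor
    · intro i
      cases i with
      | zero => rwa [me_app_zero]
      | succ i =>
        rw [me_app_succ]
        exact h1 i
    · intro i
      cases i with
      | zero =>
        rw [me_app_zero, me_app_succ, me_app_succ]
        exact h3
      | succ i =>
        rw [me_app_succ, me_app_succ, me_app_succ]
        exact h2 i

theorem X7_suffix (u : List ℕ) (z : ℕ → ℕ) (h : app u z ∈ Fi RL) : z ∈ Fi RL := by
  induction u with
  | nil => rwa [app_nil] at h
  | cons a u ih =>
    rw [me_app_cons, X7_cons] at h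
    exact ih h.2.1

theorem X7_const (a : ℕ) (ha : a < 2) : (fun _ => a : ℕ → ℕ) ∈ Fi RL := by
  rw [X7_fi]
  exact ⟨fun _ => ha, fun _ => Or.inl rfl⟩

theorem X7_app_const (a : ℕ) : app [a] (fun _ => a) = (fun _ => a : ℕ → ℕ) := by
  funext i
  cases i with
  | zero => rw [me_app_zero]
  | succ i => rw [me_app_succ]

theorem X7_G (C : Finset (List ℕ)) (u : List ℕ) (a : ℕ) :
    me_G C (u ++ [a]) = {y | app [a] y ∈ me_G C u ∧ (u ∈ C → app [a] y ∉ Om C)} := by
  ext y
  constructor
  · rintro ⟨h1, h2⟩
    refine ⟨⟨?_, ?_⟩, ?_⟩
    · rw [app_app]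
      exact h1
    · intro c hc t ht hne
      rw [app_app]
      refine h2 c hc (t ++ [a]) ?_ (by simp)
      rw [ht, List.append_assoc]
    · intro huC
      exact h2 u huC [a] rfl (by simp)
  · rintro ⟨⟨h1, h2⟩, h3⟩
    refine ⟨?_, ?_⟩
    · rw [app_app] at h1
      exact h1
    · intro c hc t ht hne
      rcases List.eq_nil_or_concat' t with rfl | ⟨t', b, rfl⟩
      · exact absurd rfl hne
      · rw [← List.append_assoc] at ht
        obtain ⟨e1, e2⟩ := List.append_inj' ht rfl
        have e3 : a = b := by simpa using e2
        subst e3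
        by_cases ht' : t' = []
        · subst ht'
          rw [List.append_nil] at e1
          rw [List.nil_append]
          exact h3 (e1 ▸ hc)
        · have := h2 c hc t' e1 ht'
          rw [app_app] at this
          exact this

/-- **X7** -/
theorem hX7 (h1 : StX5) (h2 : StX6) : StX7 := by
  intro C D h0 hRL hD
  obtain ⟨-, -, hpre⟩ := h1 C h0 hRL
  have hOm := h2 C D h0 hRL hD
  -- one step of the game
  have hstep : ∀ (u : List ℕ) (a : ℕ), a < 2 → me_G C u = {y | app [a, a] y ∈ Fi RL} →
      ∃ (u' : List ℕ) (a' : ℕ), u.length < u'.length ∧ a' < 2 ∧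
        me_G C u' = {y | app [a', a'] y ∈ Fi RL} := by
    intro u a ha hu
    by_cases huC : u ∈ C
    · obtain ⟨b, hb, hab⟩ : ∃ b, b < 2 ∧ a ≠ b := by
        refine ⟨1 - a, by omega, by omega⟩
      have hca : (fun _ => a : ℕ → ℕ) ∈ Om C := (hOm _).2 ⟨X7_const a ha, rfl⟩
      have n1 : u ++ [a] ∉ C := by
        intro h
        have e1 : app u (fun _ => a) = app (u ++ [a]) (fun _ => a) := by
          rw [← app_app, X7_app_const]
        have e2 := bdd_up h0 hD huC h hca hca e1
        have := congrArg List.length e2
        simp at this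
      have n2 : u ++ [a] ++ [b] ∉ C := by
        intro h
        have e1 := om_app (C := C) (l := [u ++ [a] ++ [b]]) (by
          intro c hc
          rw [List.mem_singleton] at hc
          exact hc ▸ h) hca
        have e2 : app (u ++ [a] ++ [b]) (fun _ => a) ∈ Fi RL := by
          have := ((hOm _).1 e1).1
          simpa using this
        rw [List.append_assoc, ← app_app] at e2
        have e3 := X7_suffix u _ e2
        rw [List.singleton_append, me_app_cons, X7_cons] at e3
        rcases e3.2.2 with e4 | e4
        · rw [me_app_zero] at e4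
          exact hab e4
        · rw [me_app_zero, me_app_succ] at e4
          exact hab e4.symm
      have g1 : me_G C (u ++ [a]) = {y | app [a, a] y ∈ Fi RL ∧ y 0 ≠ a} := by
        rw [X7_G, hu]
        ext y
        simp only [Set.mem_ofPred_eq]
        constructor
        · rintro ⟨e1, e2⟩
          rw [app_app] at e1
          have e3 : app [a, a] y ∈ Fi RL := by
            have e4 : app ([a, a] ++ [a]) y = app [a] (app [a, a] y) := by
              rw [app_app]
              rfl
            rw [e4, X7_cons] at e1
            exact e1.2.1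
          refine ⟨e3, fun hy => e2 huC ?_⟩
          rw [hOm]
          have e5 : app [a] y ∈ Fi RL := by
            rw [me_app_cons, X7_cons] at e3
            exact e3.2.1
          refine ⟨e5, ?_⟩
          rw [me_app_zero, me_app_succ]
          exact hy.symm
        · rintro ⟨e1, e2⟩
          refine ⟨?_, ?_⟩
          · rw [app_app]
            have e4 : app ([a, a] ++ [a]) y = app [a] (app [a, a] y) := by
              rw [app_app]
              rfl
            rw [e4, X7_cons]
            refine ⟨ha, e1, Or.inl ?_⟩
            rw [me_app_cons, me_app_zero]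
          · intro _ h
            have e5 := ((hOm _).1 h).2
            rw [me_app_zero, me_app_succ] at e5
            exact e2 e5.symm
      have g2 : me_G C (u ++ [a] ++ [b]) = {y | app [a, a] (app [b] y) ∈ Fi RL} := by
        rw [X7_G, g1]
        ext y
        simp only [Set.mem_ofPred_eq]
        constructor
        · rintro ⟨⟨e1, _⟩, _⟩
          exact e1
        · intro e1
          refine ⟨⟨e1, ?_⟩, fun h => absurd h n1⟩
          rw [me_app_zero]
          exact hab.symm
      have g3 : me_G C (u ++ [a] ++ [b] ++ [b]) = {y | app [b, b] y ∈ Fi RL} := by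
        rw [X7_G, g2]
        ext y
        simp only [Set.mem_ofPred_eq]
        constructor
        · rintro ⟨e1, _⟩
          have e2 := X7_suffix _ _ e1
          rw [me_app_cons]
          exact e2
        · intro e1
          refine ⟨?_, fun h => absurd h n2⟩
          rw [me_app_cons b [b] y] at e1
          rw [me_app_cons a [a], X7_cons, X7_cons]
          refine ⟨ha, ⟨ha, e1, Or.inr ?_⟩, Or.inl ?_⟩
          · rw [me_app_zero, me_app_succ, me_app_zero]
          · rw [me_app_zero]
      refine ⟨_, b, ?_, hb, g3⟩
      simp only [List.length_append, List.length_singleton]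
      omega
    · refine ⟨u ++ [a], a, by simp, ha, ?_⟩
      rw [X7_G, hu]
      ext y
      simp only [Set.mem_ofPred_eq]
      have e4 : app [a, a] (app [a] y) = app [a] (app [a, a] y) := by
        rw [app_app, app_app]
        rfl
      constructor
      · rintro ⟨e1, _⟩
        rw [e4, X7_cons] at e1
        exact e1.2.1
      · intro e1
        refine ⟨?_, fun h => absurd h huC⟩
        rw [e4, X7_cons]
        refine ⟨ha, e1, Or.inl ?_⟩
        rw [me_app_cons, me_app_zero]
  -- arbitrarily long words
  have hlong : ∀ n : ℕ, ∃ (u : List ℕ) (a : ℕ), n ≤ u.length ∧ a < 2 ∧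
      me_G C u = {y | app [a, a] y ∈ Fi RL} := by
    intro n
    induction n with
    | zero =>
      refine ⟨[0, 0], 0, Nat.zero_le _, by omega, ?_⟩
      ext y
      simp only [Set.mem_ofPred_eq]
      constructor
      · rintro ⟨e1, _⟩
        exact ((hOm _).1 e1).1
      · intro e1
        refine ⟨(hOm _).2 ⟨e1, rfl⟩, ?_⟩
        intro c hc t ht hne
        exfalso
        have hl : c.length < 2 := by
          have := congrArg List.length ht
          rw [List.length_append] at this
          have h3 := List.length_pos_iff.mpr hne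
          simp at this
          omega
        rcases hpre c hc with h | h
        · have := h.length_le
          simp at this
          omega
        · have := h.length_le
          simp at this
          omega
    | succ n ih =>
      obtain ⟨u, a, hn, ha, hu⟩ := ih
      obtain ⟨u', a', hlt, ha', hu'⟩ := hstep u a ha hu
      exact ⟨u', a', by omega, ha', hu'⟩
  set m := C.sup List.length with hm
  have hmC : ∀ c ∈ C, c.length ≤ m := fun c hc => Finset.le_sup (f := List.length) hc
  obtain ⟨u, a, hlen, ha, hu⟩ := hlong (m + 1)
  have hrank := me_rank (n := 2) h0 hmC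
    (fun c hc c' hc' y hy y' hy' h => bdd_up h0 hD hc hc' hy hy' h) 0 u (by omega)
  have hempty : me_G C u = ∅ := hrank
  have hmem : (fun _ => a : ℕ → ℕ) ∈ me_G C u := by
    rw [hu]
    show app [a, a] (fun _ => a) ∈ Fi RL
    rw [me_app_cons, X7_app_const, X7_app_const]
    exact X7_const a ha
  rw [hempty] at hmem
  exact hmem

end Pool.Agent.Helper37.EX
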