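import Pool.Agent.Helper37.EX.St
import Pool.Agent.Helper31.BD.L

set_option autoImplicit false

namespace Pool.Agent.Helper37.EX

open Pool.Agent.Helper31.BD Pool.Agent.Helper37.DE

theorem X8_rev {w : List ℕ} (h : w ∈ RL) : w.reverse ∈ RL := by
  obtain ⟨h1, h2, h3⟩ := h
  refine ⟨fun a ha => h1 a (List.mem_reverse.1 ha), fun h => h2 ?_, fun h => h3 ?_⟩
  · have := List.reverse_infix.2 h
    simpa using this
  · have := List.reverse_infix.2 h
    simpa using this

theorem hX8 (h1 : StX2) (h2 : StX3) (h3 : StX4) (h4 : StX7) : StX8 := by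
  refine ⟨h3, Set.Subset.antisymm (fun w hw => h2 w hw) (fun w hw => h1 w hw), ?_⟩
  rintro C hC ⟨D, hD⟩ hF
  rcases hD with hD | hD
  · exact h4 C D (ud_nil hC) hF hD
  · refine h4 (revC C) D (ud_nil (ud_rev hC)) ?_ hD
    rw [fac_rev, hF]
    ext w
    constructor
    · rintro ⟨v, hv, rfl⟩
      exact X8_rev hv
    · intro hw
      exact ⟨w.reverse, X8_rev hw, List.reverse_reverse w⟩

end Pool.Agent.Helper37.EX
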