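import Pool.Agent.Helper37.EX.M_X1
import Pool.Agent.Helper37.EX.M_X2
import Pool.Agent.Helper37.EX.M_X3
import Pool.Agent.Helper37.EX.M_X4
import Pool.Agent.Helper37.EX.M_X5
import Pool.Agent.Helper37.EX.M_X6
import Pool.Agent.Helper37.EX.M_X7
import Pool.Agent.Helper37.EX.M_X8

/-!
# Project EX: assembly
-/

set_option autoImplicit false

namespace Pool.Agent.Helper37.EX

open Pool.Agent.Helper31.BD

theorem fX6 : StX6 := hX6 hX5
theorem fX8 : StX8 := hX8 (hX2 hX1) hX3 hX4 (hX7 hX5 fX6)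

end Pool.Agent.Helper37.EX
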