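import Pool.Agent.Helper37.EX.CF
import Pool.Agent.Helper32.EX.HP

/-!
# MP_2857a5_co : module HIP, the host for trees consisting mainly of directed paths, Regime I
-/

set_option autoImplicit false

open Finset
open scoped Classical

namespace OT

noncomputable section

variable {V : Type} [Fintype V]

/-- initial labels -/
structure hip_Ini (D : V → V → Prop) (B C : Finset V) (o i : V → Bool) (κ : ℝ) : Prop where
  tc : TwoCl D B C κ
  labB : ∀ b ∈ B, o b = true ∧ i b = true
  labC : ∀ c ∈ C, o c = false ∧ i c = false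
  out : ∀ u, (1 / 5 : ℝ) * (Fintype.card V : ℝ) ≤
    (((if o u = true then B else C) ∩ adjN D true u).card : ℝ)
  inn : ∀ u, (1 / 5 : ℝ) * (Fintype.card V : ℝ) ≤
    (((if i u = true then B else C) ∩ adjN D false u).card : ℝ)

theorem hip_tc_swap {D : V → V → Prop} {B C : Finset V} {κ : ℝ} (h : TwoCl D B C κ) :
    TwoCl D C B κ := ⟨h.disj.symm, h.cardC, h.cardB, h.missC, h.missB⟩

theorem hip_ini_swap {D : V → V → Prop} {B C : Finset V} {o i : V → Bool} {κ : ℝ}
    (h : hip_Ini D B C o i κ) : hip_Ini D C B (fun u => !o u) (fun u => !i u) κ where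
  tc := hip_tc_swap h.tc
  labB := fun b hb => by have := h.labC b hb; simp [this.1, this.2]
  labC := fun b hb => by have := h.labB b hb; simp [this.1, this.2]
  out := fun u => by
    have := h.out u
    cases ho : o u <;> simpa [ho] using this
  inn := fun u => by
    have := h.inn u
    cases ho : i u <;> simpa [ho] using this

theorem hip_big {D : V → V → Prop} {B C : Finset V} {κ : ℝ} (hκ : κ ≤ 1 / 20)
    (tc : TwoCl D B C κ) (s : Bool) (b : V) (hb : b ∈ B) :
    (1 / 5 : ℝ) * (Fintype.card V : ℝ) ≤ ((B ∩ adjN D s b).card : ℝ) := by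
  have h1 := tc.missB s b hb
  have h2 : ((B ∩ adjN D s b).card : ℝ) + ((B \ adjN D s b).card : ℝ) = (B.card : ℝ) := by
    exact_mod_cast card_inter_add_card_sdiff B (adjN D s b)
  have h3 := tc.cardB
  have hn : (0 : ℝ) ≤ (Fintype.card V : ℝ) := Nat.cast_nonneg _
  nlinarith

theorem hip_dec {D : V → V → Prop} {B C : Finset V} {κ L : ℝ} (hL : 0 ≤ L) (hκ : κ ≤ 1 / 20)
    (tc : TwoCl D B C κ) (hD : SemiDeg D L) (s : Bool) (u : V)
    (h : ¬ (1 / 5 : ℝ) * (Fintype.card V : ℝ) ≤ ((B ∩ adjN D s u).card : ℝ)) :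
    (1 / 5 : ℝ) * (Fintype.card V : ℝ) ≤ ((C ∩ adjN D s u).card : ℝ) := by
  have h1 : adjN D s u ⊆ ((B ∩ adjN D s u) ∪ (C ∩ adjN D s u)) ∪ (univ \ (B ∪ C)) := by
    intro x hx
    simp only [mem_union, mem_inter, mem_sdiff, mem_univ, true_and]
    tauto
  have h2 : (adjN D s u).card ≤ (B ∩ adjN D s u).card + (C ∩ adjN D s u).card +
      (univ \ (B ∪ C)).card :=
    (card_le_card h1).trans ((card_union_le _ _).trans (Nat.add_le_add_right (card_union_le _ _) _))
  have h3 : (univ \ (B ∪ C)).card + (B.card + C.card) = Fintype.card V := by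
    rw [← card_union_of_disjoint tc.disj, ← Finset.card_univ]
    exact card_sdiff_add_card_eq_card (subset_univ _)
  have h2' : ((adjN D s u).card : ℝ) ≤ ((B ∩ adjN D s u).card : ℝ) + ((C ∩ adjN D s u).card : ℝ) +
      ((univ \ (B ∪ C)).card : ℝ) := by exact_mod_cast h2
  have h3' : ((univ \ (B ∪ C)).card : ℝ) + ((B.card : ℝ) + (C.card : ℝ)) = (Fintype.card V : ℝ) := by
    exact_mod_cast h3
  have h4 := hD.deg s u
  have h5 := tc.cardB
  have h6 := tc.cardC
  have hn : (0 : ℝ) ≤ (Fintype.card V : ℝ) := Nat.cast_nonneg _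
  push Not at h
  nlinarith

theorem hip_ini {D : V → V → Prop} {B C : Finset V} {κ L : ℝ} (hL : 0 ≤ L) (hκ : κ ≤ 1 / 20)
    (tc : TwoCl D B C κ) (hD : SemiDeg D L) : ∃ o i : V → Bool, hip_Ini D B C o i κ := by
  have key : ∀ s : Bool, ∃ o : V → Bool, (∀ b ∈ B, o b = true) ∧ (∀ c ∈ C, o c = false) ∧
      ∀ u, (1 / 5 : ℝ) * (Fintype.card V : ℝ) ≤
        (((if o u = true then B else C) ∩ adjN D s u).card : ℝ) := by
    intro s
    refine ⟨fun u => if u ∈ B then true else if u ∈ C then false else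
      decide ((1 / 5 : ℝ) * (Fintype.card V : ℝ) ≤ ((B ∩ adjN D s u).card : ℝ)), ?_, ?_, ?_⟩
    · intro b hb
      simp [hb]
    · intro c hc
      have : c ∉ B := fun hb => (disjoint_left.1 tc.disj) hb hc
      simp [hc, this]
    · intro u
      by_cases hb : u ∈ B
      · simpa [hb] using hip_big hκ tc s u hb
      · by_cases hc : u ∈ C
        · simpa [hb, hc] using hip_big hκ (hip_tc_swap tc) s u hc
        · by_cases hd : (1 / 5 : ℝ) * (Fintype.card V : ℝ) ≤ ((B ∩ adjN D s u).card : ℝ)
          · simp only [hb, hc, if_false, hd, decide_true, if_true]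
          · simp only [hb, hc, if_false, hd, decide_false, Bool.false_eq_true]
            exact hip_dec hL hκ tc hD s u hd
  obtain ⟨o, ho1, ho2, ho3⟩ := key true
  obtain ⟨i, hi1, hi2, hi3⟩ := key false
  exact ⟨o, i, tc, fun b hb => ⟨ho1 b hb, hi1 b hb⟩, fun c hc => ⟨ho2 c hc, hi2 c hc⟩, ho3, hi3⟩

/-- The data before the choice of the stars. -/
structure hip_Pre (D : V → V → Prop) (B C : Finset V) (o i : V → Bool) (γ κ : ℝ) : Prop where
  tc : TwoCl D B C κ
  tc' : TwoCl D B C (1 / 100)
  labB : ∀ b ∈ B, o b = true ∧ i b = true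
  labC : ∀ c ∈ C, o c = false ∧ i c = false
  out : ∀ u, γ * (Fintype.card V : ℝ) ≤
    (((if o u = true then B else C) ∩ adjN D true u).card : ℝ)
  inn : ∀ u, γ * (Fintype.card V : ℝ) ≤
    (((if i u = true then B else C) ∩ adjN D false u).card : ℝ)
  r0 : hp_ct i ≤ hp_ct o
  r1 : (hp_ct o : ℝ) ≤ hp_ct i + κ * (Fintype.card V : ℝ)
  r2 : (hp_ct o : ℝ) ≤ hp_ct i + γ * (Fintype.card V : ℝ)
  cB : (1 / 3 : ℝ) * (Fintype.card V : ℝ) ≤ (B.card : ℝ)
  cC : (1 / 3 : ℝ) * (Fintype.card V : ℝ) ≤ (C.card : ℝ)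
  alt : hp_ct o = hp_ct i ∨
    ((∀ u, o u = true → ((C ∩ adjN D true u).card : ℝ) ≤ 2 * γ * (Fintype.card V : ℝ)) ∧
      ∀ u, i u = false → ((B ∩ adjN D false u).card : ℝ) ≤ 2 * γ * (Fintype.card V : ℝ))

theorem hip_tc_rev {D : V → V → Prop} {B C : Finset V} {κ : ℝ} (h : TwoCl D B C κ) :
    TwoCl (rev D) C B κ := by
  refine ⟨h.disj.symm, h.cardC, h.cardB, ?_, ?_⟩
  · intro s b hb; rw [hp_adjN_rev]; exact h.missC _ b hb
  · intro s b hb; rw [hp_adjN_rev]; exact h.missB _ b hb

theorem hip_rev {D : V → V → Prop} {B C : Finset V} {o i : V → Bool} {γ κ : ℝ}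
    (h : hip_Pre D B C o i γ κ) : hip_Pre (rev D) C B (fun u => !i u) (fun u => !o u) γ κ := by
  have ho := hp_ct_not o
  have hi := hp_ct_not i
  have h0 := h.r0
  have ho' : (hp_ct (fun u => !o u) : ℝ) + hp_ct o = Fintype.card V := by exact_mod_cast ho
  have hi' : (hp_ct (fun u => !i u) : ℝ) + hp_ct i = Fintype.card V := by exact_mod_cast hi
  refine ⟨hip_tc_rev h.tc, hip_tc_rev h.tc', ?_, ?_, ?_, ?_, by omega, ?_, ?_, h.cC, h.cB, ?_⟩
  · intro b hb; have := h.labC b hb; simp [this.1, this.2]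
  · intro b hb; have := h.labB b hb; simp [this.1, this.2]
  · intro u
    rw [hp_adjN_rev]
    have := h.inn u
    cases ho : i u <;> simpa [ho] using this
  · intro u
    rw [hp_adjN_rev]
    have := h.out u
    cases ho : o u <;> simpa [ho] using this
  · have := h.r1; linarith
  · have := h.r2; linarith
  · rcases h.alt with h1 | ⟨h1, h2⟩
    · left; omega
    · right
      refine ⟨fun u hu => ?_, fun u hu => ?_⟩
      · rw [hp_adjN_rev]; exact h2 u (by simpa using hu)
      · rw [hp_adjN_rev]; exact h1 u (by simpa using hu)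

theorem hip_pre {D : V → V → Prop} {B C : Finset V} {o i : V → Bool} {κ₀ γ κ : ℝ} (hκ₀ : 0 ≤ κ₀)
    (hγ : γ ≤ 1 / 100) (h1 : 4 * κ₀ ≤ γ) (h2 : 5 * κ₀ ≤ κ)
    (h : hip_Ini D B C o i κ₀) (hr : hp_ct i ≤ hp_ct o) :
    ∃ (B' C' : Finset V) (o' i' : V → Bool), hip_Pre D B' C' o' i' γ κ := by
  have hn : (0 : ℝ) ≤ (Fintype.card V : ℝ) := Nat.cast_nonneg _
  set n : ℝ := (Fintype.card V : ℝ) with hndef
  -- the difference
  have hoC : hp_ct o + C.card ≤ Fintype.card V := by
    unfold hp_ct
    rw [← card_union_of_disjoint]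
    · exact card_le_univ _
    · rw [disjoint_left]
      intro x hx hC
      have := (h.labC x hC).1
      rw [mem_filter] at hx
      rw [this] at hx
      exact absurd hx.2 (by simp)
  have hiB : B.card ≤ hp_ct i := by
    unfold hp_ct
    apply card_le_card
    intro x hx
    rw [mem_filter]
    exact ⟨mem_univ _, (h.labB x hx).2⟩
  have hoC' : (hp_ct o : ℝ) + C.card ≤ n := by rw [hndef]; exact_mod_cast hoC
  have hiB' : (B.card : ℝ) ≤ hp_ct i := by exact_mod_cast hiB
  have hcC := h.tc.cardC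
  have hcB := h.tc.cardB
  rw [← hndef] at hcC hcB
  set P := univ.filter (fun u => o u = true ∧ 2 * γ * n ≤ ((C ∩ adjN D true u).card : ℝ)) with hP
  set Q := univ.filter (fun u => i u = false ∧ 2 * γ * n ≤ ((B ∩ adjN D false u).card : ℝ)) with hQ
  obtain ⟨P', Q', hPP, hQQ, hle, halt⟩ := hp_choose P Q (hp_ct o - hp_ct i)
  have hr' : ((P'.card : ℝ) + Q'.card) ≤ 2 * κ₀ * n := by
    have h3 : P'.card + Q'.card + hp_ct i ≤ hp_ct o := by omega
    have h4 : (P'.card : ℝ) + Q'.card + hp_ct i ≤ hp_ct o := by exact_mod_cast h3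
    linarith
  have hPo : ∀ u ∈ P', o u = true ∧ 2 * γ * n ≤ ((C ∩ adjN D true u).card : ℝ) := fun u hu =>
    (mem_filter.1 (hPP hu)).2
  have hQi : ∀ u ∈ Q', i u = false ∧ 2 * γ * n ≤ ((B ∩ adjN D false u).card : ℝ) := fun u hu =>
    (mem_filter.1 (hQQ hu)).2
  set Z := P' ∪ Q' with hZ
  have hZc : (Z.card : ℝ) ≤ 2 * κ₀ * n := by
    have : Z.card ≤ P'.card + Q'.card := card_union_le _ _
    have : (Z.card : ℝ) ≤ (P'.card : ℝ) + Q'.card := by exact_mod_cast this
    linarith
  have hcto : hp_ct (fun u => o u && decide (u ∉ P')) + P'.card = hp_ct o := by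
    unfold hp_ct
    rw [← card_union_of_disjoint]
    · congr 1
      ext u
      simp only [mem_union, mem_filter, mem_univ, true_and, Bool.and_eq_true, decide_eq_true_eq]
      constructor
      · rintro (h1 | h1)
        · exact h1.1
        · exact (hPo u h1).1
      · intro h1
        by_cases hu : u ∈ P'
        · exact Or.inr hu
        · exact Or.inl ⟨h1, hu⟩
    · rw [disjoint_left]
      intro u hu hu'
      simp [hu'] at hu
  have hcti : hp_ct (fun u => i u || decide (u ∈ Q')) = hp_ct i + Q'.card := by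
    unfold hp_ct
    rw [← card_union_of_disjoint]
    · congr 1
      ext u
      simp
    · rw [disjoint_left]
      intro u hu hu'
      have := (hQi u hu').1
      rw [mem_filter, this] at hu
      exact absurd hu.2 (by simp)
  have hcto' : (hp_ct (fun u => o u && decide (u ∉ P')) : ℝ) + P'.card = hp_ct o := by
    exact_mod_cast hcto
  have hcti' : (hp_ct (fun u => i u || decide (u ∈ Q')) : ℝ) = hp_ct i + Q'.card := by
    exact_mod_cast hcti
  have hPpos : (0 : ℝ) ≤ (P'.card : ℝ) := Nat.cast_nonneg _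
  have hQpos : (0 : ℝ) ≤ (Q'.card : ℝ) := Nat.cast_nonneg _
  have hBc : (B.card : ℝ) ≤ ((B \ Z).card : ℝ) + Z.card := by
    have := hp_del B Z univ
    simpa using this
  have hCc : (C.card : ℝ) ≤ ((C \ Z).card : ℝ) + Z.card := by
    have := hp_del C Z univ
    simpa using this
  have e1 : κ₀ * n ≤ 1 / 400 * n := by nlinarith
  have e2 : 4 * (κ₀ * n) ≤ γ * n := by nlinarith
  have e3 : 5 * (κ₀ * n) ≤ κ * n := by nlinarith
  have e4 : γ * n ≤ 1 / 100 * n := by nlinarith
  have e5 : 0 ≤ κ₀ * n := by positivity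
  have htc : ∀ κ' : ℝ, 3 * κ₀ * n ≤ κ' * n → TwoCl D (B \ Z) (C \ Z) κ' := by
    intro κ' hκ'
    refine ⟨disjoint_of_subset_left sdiff_subset
      (disjoint_of_subset_right sdiff_subset h.tc.disj), ?_, ?_, ?_, ?_⟩
    · rw [← hndef]; nlinarith
    · rw [← hndef]; nlinarith
    · intro s b hb
      have h3 := h.tc.missB s b (mem_sdiff.1 hb).1
      have h4 : ((((B \ Z) \ adjN D s b)).card : ℝ) ≤ ((B \ adjN D s b).card : ℝ) := by
        exact_mod_cast card_le_card (sdiff_subset_sdiff sdiff_subset subset_rfl)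
      rw [← hndef] at h3 ⊢
      linarith
    · intro s c hc
      have h3 := h.tc.missC s c (mem_sdiff.1 hc).1
      have h4 : ((((C \ Z) \ adjN D s c)).card : ℝ) ≤ ((C \ adjN D s c).card : ℝ) := by
        exact_mod_cast card_le_card (sdiff_subset_sdiff sdiff_subset subset_rfl)
      rw [← hndef] at h3 ⊢
      linarith
  refine ⟨B \ Z, C \ Z, fun u => o u && decide (u ∉ P'), fun u => i u || decide (u ∈ Q'),
    htc κ (by linarith), htc (1 / 100) (by linarith), ?_, ?_, ?_, ?_, ?_, ?_, ?_, ?_, ?_, ?_⟩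
  · intro b hb
    rw [mem_sdiff, hZ, mem_union, not_or] at hb
    have := h.labB b hb.1
    simp [this.1, this.2, hb.2.1]
  · intro c hc
    rw [mem_sdiff, hZ, mem_union, not_or] at hc
    have := h.labC c hc.1
    simp [this.1, this.2, hc.2.2]
  · intro u
    rw [← hndef]
    by_cases hu : u ∈ P'
    · have h3 := (hPo u hu).2
      have h4 := hp_del C Z (adjN D true u)
      simp only [hu, not_true_eq_false, decide_false, Bool.and_false, Bool.false_eq_true, if_false]
      nlinarith
    · have h3 := h.out u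
      rw [← hndef] at h3
      cases ho : o u
      · have h4 := hp_del C Z (adjN D true u)
        simp only [ho, Bool.false_eq_true, if_false] at h3
        simp only [Bool.false_and, Bool.false_eq_true, if_false]
        nlinarith
      · have h4 := hp_del B Z (adjN D true u)
        simp only [ho, if_true] at h3
        simp only [hu, not_false_eq_true, decide_true, Bool.and_true, if_true]
        nlinarith
  · intro u
    rw [← hndef]
    by_cases hu : u ∈ Q'
    · have h3 := (hQi u hu).2
      have h4 := hp_del B Z (adjN D false u)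
      simp only [hu, decide_true, Bool.or_true, if_true]
      nlinarith
    · have h3 := h.inn u
      rw [← hndef] at h3
      cases ho : i u
      · have h4 := hp_del C Z (adjN D false u)
        simp only [ho, Bool.false_eq_true, if_false] at h3
        simp only [hu, decide_false, Bool.or_false, Bool.false_eq_true, if_false]
        nlinarith
      · have h4 := hp_del B Z (adjN D false u)
        simp only [ho, if_true] at h3
        simp only [Bool.true_or, if_true]
        nlinarith
  · omega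
  · rw [← hndef]; linarith
  · rw [← hndef]; linarith
  · rw [← hndef]; nlinarith
  · rw [← hndef]; nlinarith
  · rcases halt with ha | ⟨ha, hb⟩
    · left; omega
    · right
      refine ⟨fun u hu => ?_, fun u hu => ?_⟩
      · rw [← hndef]
        simp only [Bool.and_eq_true, decide_eq_true_eq] at hu
        have h3 : ¬ 2 * γ * n ≤ ((C ∩ adjN D true u).card : ℝ) := by
          intro hx
          apply hu.2
          rw [ha, hP, mem_filter]
          exact ⟨mem_univ _, hu.1, hx⟩
        have h4 : (((C \ Z) ∩ adjN D true u).card : ℝ) ≤ ((C ∩ adjN D true u).card : ℝ) := by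
          exact_mod_cast card_le_card (inter_subset_inter sdiff_subset subset_rfl)
        linarith [not_le.1 h3]
      · rw [← hndef]
        simp only [Bool.or_eq_false_iff, decide_eq_false_iff_not] at hu
        have h3 : ¬ 2 * γ * n ≤ ((B ∩ adjN D false u).card : ℝ) := by
          intro hx
          apply hu.2
          rw [hb, hQ, mem_filter]
          exact ⟨mem_univ _, hu.1, hx⟩
        have h4 : (((B \ Z) ∩ adjN D false u).card : ℝ) ≤ ((B ∩ adjN D false u).card : ℝ) := by
          exact_mod_cast card_le_card (inter_subset_inter sdiff_subset subset_rfl)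
        linarith [not_le.1 h3]

end

end OT
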