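import Pool.Agent.Helper37.EX.St

/-!
# Project EX, module X1: products `0^n 1^m`
-/

set_option autoImplicit false

namespace Pool.Agent.Helper37.EX

open Pool.Agent.Helper31.BD Pool.Agent.Helper37.DE

private theorem mul_X1 {u v : List ℕ} (hu : u ∈ Mon C0) (hv : v ∈ Mon C0) : u ++ v ∈ Mon C0 := by
  obtain ⟨l, hl, rfl⟩ := hu
  obtain ⟨l', hl', rfl⟩ := hv
  refine ⟨l ++ l', ?_, by simp⟩
  intro c hc
  rcases List.mem_append.1 hc with h | h
  · exact hl c h
  · exact hl' c h

private theorem gen_X1 {c : List ℕ} (hc : c ∈ C0) : c ∈ Mon C0 := by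
  refine ⟨[c], ?_, by simp⟩
  intro d hd
  rw [List.mem_singleton] at hd
  rw [hd]; exact hc

private theorem nil_X1 : ([] : List ℕ) ∈ Mon C0 := ⟨[], by intro c hc; simp at hc, by simp⟩

private theorem pow_X1 (a : ℕ) (ha : [a, a] ∈ C0) (k : ℕ) : List.replicate (2 * k) a ∈ Mon C0 := by
  induction k with
  | zero => exact nil_X1
  | succ k ih =>
    have e : List.replicate (2 * (k + 1)) a = [a, a] ++ List.replicate (2 * k) a := by
      rw [show 2 * (k + 1) = 2 * k + 1 + 1 by ring, List.replicate_succ, List.replicate_succ]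
      simp
    rw [e]
    exact mul_X1 (gen_X1 ha) ih

private theorem key_X1 (a b i j : ℕ)
    (h : List.replicate i 0 ++ List.replicate j 1 ∈ Mon C0) :
    List.replicate (2 * a + i) 0 ++ List.replicate (j + 2 * b) 1 ∈ Mon C0 := by
  rw [List.replicate_add, List.replicate_add]
  have h1 := pow_X1 0 (by simp [C0]) a
  have h2 := pow_X1 1 (by simp [C0]) b
  have := mul_X1 (mul_X1 h1 h) h2
  simp only [List.append_assoc] at this ⊢
  exact this

theorem hX1 : StX1 := by
  intro n m hn hm
  rcases Nat.even_or_odd' n with ⟨a, ha | ha⟩ <;> rcases Nat.even_or_odd' m with ⟨b, hb | hb⟩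
  · have := key_X1 a b 0 0 nil_X1
    rw [ha, hb]
    simpa using this
  · have := key_X1 (a - 1) (b - 1) 2 3 (by
      have : List.replicate 2 0 ++ List.replicate 3 1 = [0, 0, 1, 1, 1] := rfl
      rw [this]
      exact gen_X1 (by simp [C0]))
    rwa [show 2 * (a - 1) + 2 = n by omega, show 3 + 2 * (b - 1) = m by omega] at this
  · have := key_X1 (a - 1) (b - 1) 3 2 (by
      have : List.replicate 3 0 ++ List.replicate 2 1 = [0, 0, 0, 1, 1] := rfl
      rw [this]
      exact gen_X1 (by simp [C0]))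
    rwa [show 2 * (a - 1) + 3 = n by omega, show 2 + 2 * (b - 1) = m by omega] at this
  · have := key_X1 (a - 1) (b - 1) 3 3 (by
      have : List.replicate 3 0 ++ List.replicate 3 1 = [0, 0, 0, 1, 1, 1] := rfl
      rw [this]
      exact gen_X1 (by simp [C0]))
    rwa [show 2 * (a - 1) + 3 = n by omega, show 3 + 2 * (b - 1) = m by omega] at this

end Pool.Agent.Helper37.EX
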