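import Pool.Agent.Helper37.DE.Defs

/-!
# Project EX (MP_93aa28_lc): a language of finite type that needs codes of unbounded delay

THEOREM: let `RL` be the set of the words over `{0,1}` without the factors `010`, `101` (all inner runs have
length `≥ 2`).  `RL = F(C0*)` for the code `C0 = {00, 11, 00011, 00111, 000111}`, but `RL` is not `F(C*)` for any
finite code `C` with bounded deciphering delay (from left to right or from right to left).
Available: all files of `Pool/Agent/Helper31/BD` (infinite words `app`, `pre`, `Om`, `Fi`, `quo`, `Eqv`; `type_det`,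
`me_G`, `bdd_up`, `om_app`, `om_step`, `om_closed`, `pf_iff_om`, `fi_app`, `fac_rev`, `rev_rev`, `ud_rev`, ...).
-/

set_option autoImplicit false

namespace Pool.Agent.Helper37.EX

open Pool.Agent.Helper31.BD Pool.Agent.Helper37.DE

/-- words over `{0,1}` whose inner runs have length at least two -/
def RL : Set (List ℕ) := {w | (∀ a ∈ w, a < 2) ∧ ¬ [0, 1, 0] <:+: w ∧ ¬ [1, 0, 1] <:+: w}

/-- the code with five words -/
def C0 : Finset (List ℕ) := {[0, 0], [1, 1], [0, 0, 0, 1, 1], [0, 0, 1, 1, 1], [0, 0, 0, 1, 1, 1]}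

/-- PROOF. Parities: `n, m` even: powers of `00` and `11`; `n` odd, `m` even: `(00)^((n-3)/2) 00011 (11)^((m-2)/2)`;
`n` even, `m` odd: `(00)^((n-2)/2) 00111 (11)^((m-3)/2)`; both odd: `(00)^((n-3)/2) 000111 (11)^((m-3)/2)`. -/
def StX1 : Prop :=
  ∀ n m : ℕ, 2 ≤ n → 2 ≤ m → List.replicate n 0 ++ List.replicate m 1 ∈ Mon C0

/-- PROOF. Simultaneous induction on the length of `w` for
(Q1) `[0,0] ++ w ∈ RL` implies: there is `v` with `0^n w v ∈ Mon C0` for all `n ≥ 2`;
(Q2) `[1,1] ++ w ∈ RL` implies: there is `v` with `0^n 1^m w v ∈ Mon C0` for all `n, m ≥ 2`.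
(Q1) `w = []`: `v = 11` (`StX1`).  `w = 0 w'`: `v` of (Q1) for `w'`.  `w = 1 w'`: as `010` is forbidden, `w' = []` (`v = 1`) or
`w' = 1 w''`: `v` of (Q2) for `w''` (with `m = 2`).  (Q2) `w = []`: `v = []`.  `w = 1 w'`: (Q2) for `w'`.  `w = 0 w'`: `w' = []`
(`v = 0`) or `w' = 0 w''`: `0^n 1^m` times `00 w'' v` with `v` of (Q1) for `w''`.
Then for `w ∈ RL` beginning with `0`: `[0,0] ++ w ∈ RL`, (Q1) with `n = 2`; beginning with `1`: `[1,1] ++ w ∈ RL`, (Q2). -/
def StX2 : Prop := ∀ w ∈ RL, w ∈ Fac C0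

/-- PROOF. By induction on `l`: `l.flatten` is in `RL` and is empty or begins with `00` or `11`; the words of
`C0` end with `00` or `11`.  `RL` is closed under factors. -/
def StX3 : Prop := ∀ w ∈ Fac C0, w ∈ RL

/-- PROOF. Products begin with `00` or `11` (or are empty).  (1) `1 r ∉ Mon C0` for `r ∈ Mon C0`: otherwise the
first word of `1 r` is `11`, `r` begins with `1`, so `r = 11 r'`, `1 r = 11 (1 r')`, induction on the length.
(2) Induction on `l1`: if the first words `c1, c2` differ then up to symmetry `(c1,c2)` is `(00, 00011)` or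
`(00, 000111)` (the rest would begin with `01`), `(00, 00111)` (the rest of the first product is `111 r`, `r ∈ Mon C0`,
so its first word is `11` and `1 r ∈ Mon C0`), `(00011, 000111)` (the rest is `1 r`); all other pairs are
incomparable. -/
def StX4 : Prop := UD C0

/-- PROOF. `0^N ∈ RL` for all `N`; for `N` larger than twice the maximal length in `C` an occurrence of `0^N` in
`l.flatten` contains a whole word of `l`: `0^m ∈ C`, `m ≥ 1`; same for `1`.  If `[0] ∈ C` then
`1^m' 0 1^m' ∈ Fac C = RL` contains `101`; so `m ≥ 2`, and `m' ≥ 2`.  If `c ∈ C` begins with `0` then `c ≠ [0]` and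
`1^m' c ∈ RL`, so the second letter of `c` is `0`; same for `1`. -/
def StX5 : Prop :=
  ∀ C : Finset (List ℕ), [] ∉ C → Fac C = RL →
    (∃ m, 2 ≤ m ∧ List.replicate m 0 ∈ C) ∧ (∃ m, 2 ≤ m ∧ List.replicate m 1 ∈ C) ∧
    ∀ c ∈ C, [0, 0] <+: c ∨ [1, 1] <+: c

/-- PROOF. `⊆`: prefixes of words of `C*` are in `Fac C = RL`; the first word of `y` begins with `00` or `11`
(`om_step`, `StX5`).  `⊇`: let `y ∈ Fi RL` begin with `00` (the letters of `y` are `< 2`).  `y0 = app (0^m) z ∈ Om C`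
for some `z ∈ Om C` (`om_nonempty`, `om_app`), `0^m ∈ C`, `m ≥ 2`.  For every word `u`: `y ∈ Fi (quo RL u)` iff
`u ∈ RL` and `u` does not end with `01` (a forbidden factor of `u y` is in `u`, or in `y`, or it is made of the last two
letters of `u` and the `0`, or of the last letter of `u` and `00`, which is impossible); the same for `y0`.  So
`Eqv (Fac C) y0 y`, and `type_det` applies.  Same for `11`. -/
def StX6 : Prop :=
  ∀ (C : Finset (List ℕ)) (D : ℕ), [] ∉ C → Fac C = RL → BDD C D →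
    ∀ y : ℕ → ℕ, (y ∈ Om C ↔ y ∈ Fi RL ∧ y 0 = y 1)

/-- PROOF. Let `F a = {y | app [a,a] y ∈ Fi RL}` for `a = 0, 1`; nonempty.  `me_G C u` (`Helper31/BD/E.lean`) is the set of the `y`
with `app u y ∈ Om C` whose parse has no cut strictly inside `u`; one has
`me_G C (u ++ [b]) = {y | app [b] y ∈ me_G C u ∧ ¬ (u ∈ C ∧ app [b] y ∈ Om C)}`.
(0) `me_G C [0,0] = F 0` (`[0] ∉ C`, `StX6`).  (1) If `me_G C u = F a`, `u ∉ C`, then `me_G C (u ++ [a]) = F a`, because
`app [a,a,a] y ∈ Fi RL ↔ app [a,a] y ∈ Fi RL`.  (2) If `me_G C u = F a` and `u ∈ C`, let `b = 1 - a`.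
`me_G C (u ++ [a])` is the set of the `y` with `app [a,a,a] y ∈ Fi RL`, `app [a] y ∉ Om C`, i.e. `y 0 = b`.
`u ++ [a] ∉ C`: otherwise for `y ∈ Om C` with `y 0 = y 1 = a` both `u` and `u ++ [a]` are first words of
`app (u ++ [a]) y` (`bdd_up`).  `me_G C (u ++ [a,b]) = {y | app [a,a,a,b] y ∈ Fi RL}`, and `u ++ [a,b] ∉ C`: otherwise
`app (u ++ [a,b]) y ∈ Om C` for `y` beginning with `a a`, it contains `a b a`.  So
`me_G C (u ++ [a,b,b]) = {y | app [a,a,a,b,b] y ∈ Fi RL} = F b`.
By (0), (1), (2) there are arbitrarily long `u` with `me_G C u` nonempty; but `me_G C u = ∅` if `u` is longer than all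
words of `C` (case `k = 0` of `me_rank`, or `om_step`). -/
def StX7 : Prop := ∀ (C : Finset (List ℕ)) (D : ℕ), [] ∉ C → Fac C = RL → ¬ BDD C D

/-- PROOF. `RL` is closed under reversal; `Fac (revC C) = List.reverse '' Fac C` (`fac_rev`); `StX7` for `C` and for
`revC C`. -/
def StX8 : Prop :=
  UD C0 ∧ Fac C0 = RL ∧ ∀ C : Finset (List ℕ), UD C → (∃ D : ℕ, BDD C D ∨ BDD (revC C) D) → Fac C ≠ RL

end Pool.Agent.Helper37.EX
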